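import Mathlib

/-!
# An averaging lemma for random subsets
-/

namespace Pool.Agent.Q248.CHG

open Finset

/-- functions with prescribed values -/
theorem card_prescribed {m q : ℕ} (T : Finset (Fin m × Fin q)) :
    (univ.filter (fun σ : Fin m → Fin q => ∀ t ∈ T, σ t.1 = t.2)).card * q ^ T.card ≤ q ^ m := by
  classical
  set F : Fin m → Finset (Fin q) := fun i => univ.filter (fun j => ∀ t ∈ T, t.1 = i → t.2 = j)
    with hF
  have hsub : univ.filter (fun σ : Fin m → Fin q => ∀ t ∈ T, σ t.1 = t.2) ⊆
      Fintype.piFinset F := by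
    intro σ hσ
    rw [mem_filter] at hσ
    rw [Fintype.mem_piFinset]
    intro i
    rw [hF, mem_filter]
    refine ⟨mem_univ _, ?_⟩
    rintro t ht rfl
    exact (hσ.2 t ht).symm
  by_cases hinj : Set.InjOn Prod.fst (T : Set (Fin m × Fin q))
  · have h1 : (Fintype.piFinset F).card ≤ ∏ i : Fin m, (if i ∈ T.image Prod.fst then 1 else q) := by
      rw [Fintype.card_piFinset]
      apply Finset.prod_le_prod' 
      intro i _
      split_ifs with hi
      · rw [mem_image] at hi
        obtain ⟨t, ht, rfl⟩ := hi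
        rw [Finset.card_le_one]
        intro a ha b hb
        rw [hF, mem_filter] at ha hb
        rw [← ha.2 t ht rfl, ← hb.2 t ht rfl]
      · exact (card_le_univ _).trans (by rw [Fintype.card_fin])
    have h2 : ∏ i : Fin m, (if i ∈ T.image Prod.fst then 1 else q) = q ^ (m - T.card) := by
      rw [prod_ite, prod_const_one, one_mul, prod_const]
      congr 1
      have : (univ.filter (fun i : Fin m => i ∉ T.image Prod.fst)) = (T.image Prod.fst)ᶜ := by
        ext i; simp
      rw [this, card_compl, Fintype.card_fin, card_image_of_injOn hinj]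
    have h3 : T.card ≤ m := by
      rw [← card_image_of_injOn hinj]
      exact (card_le_univ _).trans (by rw [Fintype.card_fin])
    calc _ ≤ q ^ (m - T.card) * q ^ T.card := by
          apply Nat.mul_le_mul_right
          exact (card_le_card hsub).trans (h1.trans h2.le)
      _ = q ^ m := by rw [← pow_add, Nat.sub_add_cancel h3]
  · have : univ.filter (fun σ : Fin m → Fin q => ∀ t ∈ T, σ t.1 = t.2) = ∅ := by
      rw [filter_eq_empty_iff]
      intro σ _ hσ
      apply hinj
      intro a ha b hb hab
      ext1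
      · exact hab
      · rw [← hσ a ha, ← hσ b hb, hab]
    rw [this, card_empty, zero_mul]
    exact Nat.zero_le _

/-- **Averaging lemma.** A set `B` of `m q` elements has a subset `A` of `m` elements such that a
given weighted sum over the sets `S i ⊆ A` is at most what one expects of a random subset. -/
theorem exists_subset_avg {α ι : Type*} [DecidableEq α] (B : Finset α) (m q : ℕ) (hq : 0 < q)
    (hB : B.card = m * q) (I : Finset ι) (S : ι → Finset α) (hS : ∀ i ∈ I, S i ⊆ B) (w : ι → ℝ)
    (hw : ∀ i ∈ I, 0 ≤ w i) :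
    ∃ A ⊆ B, A.card = m ∧
      ∑ i ∈ I, (if S i ⊆ A then w i else 0) ≤ ∑ i ∈ I, w i * (1 / (q : ℝ)) ^ (S i).card := by
  classical
  have e : B ≃ Fin m × Fin q := by
    apply Fintype.equivOfCardEq
    rw [Fintype.card_coe, hB, Fintype.card_prod, Fintype.card_fin, Fintype.card_fin]
  set AA : (Fin m → Fin q) → Finset α := fun σ =>
    (univ.filter (fun x : B => σ (e x).1 = (e x).2)).map (Function.Embedding.subtype _) with hAA
  have hAAmem : ∀ σ x, x ∈ AA σ ↔ ∃ hx : x ∈ B, σ (e ⟨x, hx⟩).1 = (e ⟨x, hx⟩).2 := by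
    intro σ x
    simp only [hAA, mem_map, mem_filter, mem_univ, true_and, Function.Embedding.subtype_apply]
    constructor
    · rintro ⟨⟨y, hy⟩, h, rfl⟩
      exact ⟨hy, h⟩
    · rintro ⟨hx, h⟩
      exact ⟨⟨x, hx⟩, h, rfl⟩
  have hcard : ∀ σ, (AA σ).card = m := by
    intro σ
    simp only [hAA, card_map]
    have : (univ.filter (fun x : B => σ (e x).1 = (e x).2)) =
        (univ.map ⟨fun i : Fin m => e.symm (i, σ i), fun i j hij => by
          have := e.symm.injective hij
          exact (Prod.mk.inj this).1⟩) := by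
      ext x
      simp only [mem_filter, mem_univ, true_and, mem_map, Function.Embedding.coeFn_mk]
      constructor
      · intro h
        exact ⟨(e x).1, by rw [h, Prod.mk.eta, Equiv.symm_apply_apply]⟩
      · rintro ⟨i, rfl⟩
        simp
    rw [this, card_map, card_univ, Fintype.card_fin]
  have hqm : (0 : ℝ) < (q : ℝ) ^ m := by positivity
  -- the count for one set
  have hcount : ∀ i ∈ I, ((univ.filter (fun σ : Fin m → Fin q => S i ⊆ AA σ)).card : ℝ) ≤
      (q : ℝ) ^ m * (1 / (q : ℝ)) ^ (S i).card := by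
    intro i hi
    set T : Finset (Fin m × Fin q) := (S i).attach.image (fun x => e ⟨x.1, hS i hi x.2⟩) with hT
    have hTc : T.card = (S i).card := by
      rw [hT, card_image_of_injective, card_attach]
      intro x y hxy
      have := e.injective hxy
      exact Subtype.ext (Subtype.mk.inj this)
    have hsub : univ.filter (fun σ : Fin m → Fin q => S i ⊆ AA σ) ⊆
        univ.filter (fun σ : Fin m → Fin q => ∀ t ∈ T, σ t.1 = t.2) := by
      intro σ hσ
      rw [mem_filter] at hσ ⊢
      refine ⟨mem_univ _, ?_⟩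
      intro t ht
      rw [hT, mem_image] at ht
      obtain ⟨x, _, rfl⟩ := ht
      obtain ⟨hx, h⟩ := (hAAmem σ x.1).1 (hσ.2 x.2)
      exact h
    have h1 := card_prescribed T
    have h2 := Nat.mul_le_mul_right (q ^ T.card) (card_le_card hsub)
    have h3 : (((univ.filter (fun σ : Fin m → Fin q => S i ⊆ AA σ)).card * q ^ T.card : ℕ) : ℝ) ≤
        ((q ^ m : ℕ) : ℝ) := by exact_mod_cast h2.trans h1
    push_cast at h3
    rw [hTc] at h3
    rw [one_div, inv_pow, ← div_eq_mul_inv, le_div_iff₀ (by positivity)]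
    exact h3
  -- averaging
  have hsum : ∑ σ : Fin m → Fin q, ∑ i ∈ I, (if S i ⊆ AA σ then w i else 0) ≤
      ∑ σ : Fin m → Fin q, ∑ i ∈ I, w i * (1 / (q : ℝ)) ^ (S i).card := by
    rw [sum_comm, sum_const, card_univ, Fintype.card_fun, Fintype.card_fin, Fintype.card_fin,
      nsmul_eq_mul, mul_sum]
    apply sum_le_sum
    intro i hi
    rw [← sum_filter, sum_const, nsmul_eq_mul]
    calc _ ≤ (q : ℝ) ^ m * (1 / (q : ℝ)) ^ (S i).card * w i :=
          mul_le_mul_of_nonneg_right (hcount i hi) (hw i hi)
      _ = _ := by push_cast; ring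
  have hne : (univ : Finset (Fin m → Fin q)).Nonempty := by
    haveI : Nonempty (Fin q) := ⟨⟨0, hq⟩⟩
    exact univ_nonempty
  obtain ⟨σ, _, hσ⟩ := exists_le_of_sum_le hne hsum
  refine ⟨AA σ, ?_, hcard σ, hσ⟩
  intro x hx
  exact ((hAAmem σ x).1 hx).1

end Pool.Agent.Q248.CHG
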