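import Pool.Agent.Q248.CHG.Avg

/-!
# Grid configurations
-/

namespace Pool.Agent.Q248.CHG

open Finset

/-- `φ` is a grid configuration on `R × C` with values in `A` (and `0` outside `R × C`). -/
def IsGrid {h g : ℕ} (R : Finset (Fin h)) (C : Finset (Fin g)) (A : Finset ℤ)
    (φ : Fin h → Fin g → ℤ) : Prop :=
  (∀ i ∈ R, ∀ k ∈ C, φ i k ∈ A) ∧ (∀ i k, ¬ (i ∈ R ∧ k ∈ C) → φ i k = 0) ∧
  (∀ i ∈ R, ∀ k ∈ C, ∀ i' ∈ R, ∀ k' ∈ C, φ i k = φ i' k' → i = i' ∧ k = k') ∧
  (∀ i ∈ R, ∀ i' ∈ R, ∀ k ∈ C, ∀ k' ∈ C, φ i k + φ i' k' = φ i k' + φ i' k)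

open Classical in
/-- the finite set of grid configurations -/
noncomputable def Grid {h g : ℕ} (R : Finset (Fin h)) (C : Finset (Fin g)) (A : Finset ℤ) :
    Finset (Fin h → Fin g → ℤ) :=
  (Fintype.piFinset (fun _ => Fintype.piFinset (fun _ => insert 0 A))).filter (IsGrid R C A)

theorem mem_Grid {h g : ℕ} {R : Finset (Fin h)} {C : Finset (Fin g)} {A : Finset ℤ}
    {φ : Fin h → Fin g → ℤ} : φ ∈ Grid R C A ↔ IsGrid R C A φ := by
  classical
  unfold Grid
  rw [mem_filter]
  refine ⟨fun h => h.2, fun h => ⟨?_, h⟩⟩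
  rw [Fintype.mem_piFinset]
  intro i
  rw [Fintype.mem_piFinset]
  intro k
  rw [mem_insert]
  by_cases hik : i ∈ R ∧ k ∈ C
  · exact Or.inr (h.1 i hik.1 k hik.2)
  · exact Or.inl (h.2.1 i k hik)

theorem Grid_mono {h g : ℕ} {R : Finset (Fin h)} {C : Finset (Fin g)} {A B : Finset ℤ}
    (hAB : A ⊆ B) : Grid R C A ⊆ Grid R C B := by
  intro φ hφ
  rw [mem_Grid] at hφ ⊢
  exact ⟨fun i hi k hk => hAB (hφ.1 i hi k hk), hφ.2⟩

/-- transposition -/
theorem mem_Grid_swap {h g : ℕ} {R : Finset (Fin h)} {C : Finset (Fin g)} {A : Finset ℤ}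
    {φ : Fin h → Fin g → ℤ} : (fun k i => φ i k) ∈ Grid C R A ↔ φ ∈ Grid R C A := by
  rw [mem_Grid, mem_Grid]
  constructor
  · rintro ⟨h1, h2, h3, h4⟩
    refine ⟨fun i hi k hk => h1 k hk i hi, fun i k hik => h2 k i (fun hc => hik ⟨hc.2, hc.1⟩), ?_, ?_⟩
    · intro i hi k hk i' hi' k' hk' e
      have := h3 k hk i hi k' hk' i' hi' e
      exact ⟨this.2, this.1⟩
    · intro i hi i' hi' k hk k' hk'
      have := h4 k hk k' hk' i hi i' hi'
      linarith
  · rintro ⟨h1, h2, h3, h4⟩
    refine ⟨fun i hi k hk => h1 k hk i hi, fun i k hik => h2 k i (fun hc => hik ⟨hc.2, hc.1⟩), ?_, ?_⟩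
    · intro i hi k hk i' hi' k' hk' e
      have := h3 k hk i hi k' hk' i' hi' e
      exact ⟨this.2, this.1⟩
    · intro i hi i' hi' k hk k' hk'
      have := h4 k hk k' hk' i hi i' hi'
      linarith

theorem card_Grid_swap {h g : ℕ} (R : Finset (Fin h)) (C : Finset (Fin g)) (A : Finset ℤ) :
    (Grid C R A).card = (Grid R C A).card := by
  classical
  apply Finset.card_bij' (fun ψ _ => fun i k => ψ k i) (fun φ _ => fun k i => φ i k)
  · intro ψ hψ
    exact mem_Grid_swap.1 hψ
  · intro φ hφ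
    exact mem_Grid_swap.2 hφ
  · intro _ _; rfl
  · intro _ _; rfl

/-- the configurations whose new rows are exactly `R'` -/
def RowNew {h g : ℕ} (R R' : Finset (Fin h)) (C : Finset (Fin g)) (O B : Finset ℤ)
    (φ : Fin h → Fin g → ℤ) : Prop :=
  (∀ i ∈ R', ∀ k ∈ C, φ i k ∈ B) ∧ (∀ i ∈ R \ R', ∀ k ∈ C, φ i k ∈ O)

/-- **Old and new elements.** -/
theorem pattern {h g : ℕ} {R : Finset (Fin h)} {C : Finset (Fin g)} {O B : Finset ℤ} {L M : ℤ}
    (hO : ∀ x ∈ O, 0 ≤ x ∧ x ≤ L) (hB : ∀ x ∈ B, M < x ∧ 16 * x ≤ 17 * M) (hLM : 16 * L ≤ M)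
    {φ : Fin h → Fin g → ℤ} (hφ : φ ∈ Grid R C (O ∪ B)) :
    (∃ R' ⊆ R, RowNew R R' C O B φ) ∨ (∃ C' ⊆ C, RowNew C C' R O B (fun k i => φ i k)) := by
  classical
  rw [mem_Grid] at hφ
  obtain ⟨h1, -, -, h4⟩ := hφ
  have key : ∀ i ∈ R, ∀ i' ∈ R, ∀ k ∈ C, ∀ k' ∈ C, φ i k ∈ B → φ i k' ∈ O →
      φ i' k ∈ B ∧ φ i' k' ∈ O := by
    intro i hi i' hi' k hk k' hk' ha hb
    have e := h4 i hi i' hi' k hk k' hk'
    have c1 := h1 i' hi' k hk
    have c2 := h1 i' hi' k' hk'
    rw [mem_union] at c1 c2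
    have a1 := hB _ ha
    have b1 := hO _ hb
    rcases c1 with c1 | c1
    · exfalso
      have d1 := hO _ c1
      rcases c2 with c2 | c2
      · have d2 := hO _ c2
        omega
      · have d2 := hB _ c2
        omega
    · refine ⟨c1, ?_⟩
      rcases c2 with c2 | c2
      · exact c2
      · exfalso
        have d1 := hB _ c1
        have d2 := hB _ c2
        omega
  by_cases hrow : ∀ i ∈ R, (∀ k ∈ C, φ i k ∈ B) ∨ (∀ k ∈ C, φ i k ∈ O)
  · left
    refine ⟨R.filter (fun i => ∀ k ∈ C, φ i k ∈ B), filter_subset _ _, ?_, ?_⟩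
    · intro i hi k hk
      exact (mem_filter.1 hi).2 k hk
    · intro i hi k hk
      rw [mem_sdiff, mem_filter] at hi
      rcases hrow i hi.1 with h | h
      · exact absurd ⟨hi.1, h⟩ hi.2
      · exact h k hk
  · push Not at hrow
    obtain ⟨i, hi, ⟨k', hk', hb⟩, ⟨k, hk, ha⟩⟩ := hrow
    have ha' : φ i k ∈ B := by
      have := h1 i hi k hk
      rw [mem_union] at this
      tauto
    have hb' : φ i k' ∈ O := by
      have := h1 i hi k' hk'
      rw [mem_union] at this
      tauto
    right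
    refine ⟨C.filter (fun c => φ i c ∈ B), filter_subset _ _, ?_, ?_⟩
    · intro c hc i' hi'
      rw [mem_filter] at hc
      exact (key i hi i' hi' c hc.1 k' hk' hc.2 hb').1
    · intro c hc i' hi'
      rw [mem_sdiff, mem_filter] at hc
      have hcO : φ i c ∈ O := by
        have := h1 i hi c hc.1
        rw [mem_union] at this
        tauto
      exact (key i hi i' hi' k hk c hc.1 ha' hcO).2

/-- the number of grid configurations with new rows `R'`, a proper subset of `R` -/
theorem card_rowNew {h g : ℕ} {R R' : Finset (Fin h)} {C : Finset (Fin g)} {O B : Finset ℤ}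
    (hR' : R' ⊆ R) (hne : (R \ R').Nonempty) (hC : C.Nonempty)
    (s : Finset (Fin h → Fin g → ℤ)) (hs : ∀ φ ∈ s, φ ∈ Grid R C (O ∪ B) ∧ RowNew R R' C O B φ) :
    s.card ≤ (Grid (R \ R') C O).card * B.card ^ R'.card := by
  classical
  obtain ⟨k₀, hk₀⟩ := hC
  obtain ⟨i₀, hi₀⟩ := hne
  have hi₀R : i₀ ∈ R := (mem_sdiff.1 hi₀).1
  set PB : Finset (Fin h → ℤ) := Fintype.piFinset (fun i => if i ∈ R' then B else {0}) with hPB
  have hPBc : PB.card = B.card ^ R'.card := by
    rw [hPB, Fintype.card_piFinset]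
    have : ∀ i : Fin h, (if i ∈ R' then B else ({0} : Finset ℤ)).card = if i ∈ R' then B.card else 1 := by
      intro i; split_ifs <;> simp
    rw [prod_congr rfl (fun i _ => this i), prod_ite, prod_const_one, mul_one, prod_const]
    congr 1
    rw [filter_mem_eq_inter, univ_inter]
  rw [← hPBc, ← card_product]
  apply card_le_card_of_injOn (fun φ => ((fun i k => if i ∈ R \ R' then φ i k else 0),
    (fun i => if i ∈ R' then φ i k₀ else 0)))
  · intro φ hφ
    obtain ⟨h1, h2⟩ := hs φ hφ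
    rw [mem_Grid] at h1
    obtain ⟨g1, g2, g3, g4⟩ := h1
    obtain ⟨n1, n2⟩ := h2
    rw [mem_coe, mem_product]
    constructor
    · show (fun i k => if i ∈ R \ R' then φ i k else 0) ∈ Grid (R \ R') C O
      rw [mem_Grid]
      refine ⟨?_, ?_, ?_, ?_⟩
      · intro i hi k hk
        show (if i ∈ R \ R' then φ i k else 0) ∈ O
        rw [if_pos hi]; exact n2 i hi k hk
      · intro i k hik
        show (if i ∈ R \ R' then φ i k else 0) = 0
        by_cases hi : i ∈ R \ R'
        · rw [if_pos hi]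
          apply g2
          intro hc
          exact hik ⟨hi, hc.2⟩
        · rw [if_neg hi]
      · intro i hi k hk i' hi' k' hk' e
        have e' : (if i ∈ R \ R' then φ i k else 0) = (if i' ∈ R \ R' then φ i' k' else 0) := e
        rw [if_pos hi, if_pos hi'] at e'
        exact g3 i (mem_sdiff.1 hi).1 k hk i' (mem_sdiff.1 hi').1 k' hk' e'
      · intro i hi i' hi' k hk k' hk'
        show (if i ∈ R \ R' then φ i k else 0) + (if i' ∈ R \ R' then φ i' k' else 0) =
          (if i ∈ R \ R' then φ i k' else 0) + (if i' ∈ R \ R' then φ i' k else 0)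
        rw [if_pos hi, if_pos hi', if_pos hi, if_pos hi']
        exact g4 i (mem_sdiff.1 hi).1 i' (mem_sdiff.1 hi').1 k hk k' hk'
    · show (fun i => if i ∈ R' then φ i k₀ else 0) ∈ PB
      rw [hPB, Fintype.mem_piFinset]
      intro i
      by_cases hi : i ∈ R'
      · simp only [if_pos hi]; exact n1 i hi k₀ hk₀
      · simp only [if_neg hi]; exact mem_singleton_self 0
  · intro φ hφ ψ hψ hφψ
    obtain ⟨h1, -⟩ := hs φ hφ
    obtain ⟨h1', -⟩ := hs ψ hψ
    rw [mem_Grid] at h1 h1'
    obtain ⟨g1, g2, g3, g4⟩ := h1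
    obtain ⟨g1', g2', g3', g4'⟩ := h1'
    obtain ⟨e1, e2⟩ := Prod.mk.inj hφψ
    have f1 : ∀ i ∈ R \ R', ∀ k, φ i k = ψ i k := by
      intro i hi k
      have := congrFun (congrFun e1 i) k
      simp only [if_pos hi] at this
      exact this
    have f2 : ∀ i ∈ R', φ i k₀ = ψ i k₀ := by
      intro i hi
      have := congrFun e2 i
      simp only [if_pos hi] at this
      exact this
    funext i k
    by_cases hik : i ∈ R ∧ k ∈ C
    · by_cases hi : i ∈ R'
      · have a1 := g4 i hik.1 i₀ hi₀R k hik.2 k₀ hk₀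
        have a2 := g4' i hik.1 i₀ hi₀R k hik.2 k₀ hk₀
        rw [f1 i₀ hi₀, f1 i₀ hi₀, f2 i hi] at a1
        linarith
      · exact f1 i (mem_sdiff.2 ⟨hik.1, hi⟩) k
    · rw [g2 i k hik, g2' i k hik]

/-- the number of grid configurations in `B` -/
theorem card_allNew {h g : ℕ} {R : Finset (Fin h)} {C : Finset (Fin g)} {B : Finset ℤ}
    (hR : R.Nonempty) (hC : C.Nonempty)
    (s : Finset (Fin h → Fin g → ℤ)) (hs : ∀ φ ∈ s, φ ∈ Grid R C B) :
    s.card ≤ B.card ^ (R.card + C.card - 1) := by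
  classical
  obtain ⟨k₀, hk₀⟩ := hC
  obtain ⟨i₀, hi₀⟩ := hR
  set PB : Finset (Fin h → ℤ) := Fintype.piFinset (fun i => if i ∈ R then B else {0}) with hPB
  have hPBc : PB.card = B.card ^ R.card := by
    rw [hPB, Fintype.card_piFinset]
    have : ∀ i : Fin h, (if i ∈ R then B else ({0} : Finset ℤ)).card = if i ∈ R then B.card else 1 := by
      intro i; split_ifs <;> simp
    rw [prod_congr rfl (fun i _ => this i), prod_ite, prod_const_one, mul_one, prod_const]
    congr 1
    rw [filter_mem_eq_inter, univ_inter]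
  set PC : Finset (Fin g → ℤ) := Fintype.piFinset (fun k => if k ∈ C.erase k₀ then B else {0}) with hPC
  have hPCc : PC.card = B.card ^ (C.card - 1) := by
    rw [hPC, Fintype.card_piFinset]
    have : ∀ i : Fin g, (if i ∈ C.erase k₀ then B else ({0} : Finset ℤ)).card =
        if i ∈ C.erase k₀ then B.card else 1 := by
      intro i; split_ifs <;> simp
    rw [prod_congr rfl (fun i _ => this i), prod_ite, prod_const_one, mul_one, prod_const]
    congr 1
    rw [filter_mem_eq_inter, univ_inter, card_erase_of_mem hk₀]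
  have hexp : R.card + C.card - 1 = R.card + (C.card - 1) := by
    have : 0 < C.card := card_pos.2 ⟨k₀, hk₀⟩
    omega
  rw [hexp, pow_add, ← hPBc, ← hPCc, ← card_product]
  apply card_le_card_of_injOn (fun φ => ((fun i => if i ∈ R then φ i k₀ else 0),
    (fun k => if k ∈ C.erase k₀ then φ i₀ k else 0)))
  · intro φ hφ
    have h1 := hs φ hφ
    rw [mem_Grid] at h1
    obtain ⟨g1, g2, g3, g4⟩ := h1
    rw [mem_coe, mem_product]
    constructor
    · show (fun i => if i ∈ R then φ i k₀ else 0) ∈ PB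
      rw [hPB, Fintype.mem_piFinset]
      intro i
      by_cases hi : i ∈ R
      · simp only [if_pos hi]; exact g1 i hi k₀ hk₀
      · simp only [if_neg hi]; exact mem_singleton_self 0
    · show (fun k => if k ∈ C.erase k₀ then φ i₀ k else 0) ∈ PC
      rw [hPC, Fintype.mem_piFinset]
      intro k
      by_cases hk : k ∈ C.erase k₀
      · simp only [if_pos hk]; exact g1 i₀ hi₀ k (mem_of_mem_erase hk)
      · simp only [if_neg hk]; exact mem_singleton_self 0
  · intro φ hφ ψ hψ hφψ
    have h1 := hs φ hφ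
    have h1' := hs ψ hψ
    rw [mem_Grid] at h1 h1'
    obtain ⟨g1, g2, g3, g4⟩ := h1
    obtain ⟨g1', g2', g3', g4'⟩ := h1'
    obtain ⟨e1, e2⟩ := Prod.mk.inj hφψ
    have f1 : ∀ i ∈ R, φ i k₀ = ψ i k₀ := by
      intro i hi
      have := congrFun e1 i
      simp only [if_pos hi] at this
      exact this
    have f2 : ∀ k ∈ C, φ i₀ k = ψ i₀ k := by
      intro k hk
      by_cases hkk : k = k₀
      · rw [hkk]; exact f1 i₀ hi₀
      · have := congrFun e2 k
        simp only [if_pos (mem_erase.2 ⟨hkk, hk⟩)] at this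
        exact this
    funext i k
    by_cases hik : i ∈ R ∧ k ∈ C
    · have a1 := g4 i hik.1 i₀ hi₀ k hik.2 k₀ hk₀
      have a2 := g4' i hik.1 i₀ hi₀ k hik.2 k₀ hk₀
      rw [f1 i₀ hi₀, f2 k hik.2, f1 i hik.1] at a1
      linarith
    · rw [g2 i k hik, g2' i k hik]

theorem sum_biUnion_le_of_nonneg {ι α : Type*} [DecidableEq α] (s : Finset ι) (t : ι → Finset α)
    (f : α → ℝ) (hf : ∀ a, 0 ≤ f a) : ∑ a ∈ s.biUnion t, f a ≤ ∑ i ∈ s, ∑ a ∈ t i, f a := by
  classical
  induction s using Finset.induction_on with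
  | empty => simp
  | insert i s hi ih =>
    rw [biUnion_insert, sum_insert hi]
    have : ∑ a ∈ t i ∪ s.biUnion t, f a ≤ ∑ a ∈ t i, f a + ∑ a ∈ s.biUnion t, f a := by
      rw [← sum_union_inter]
      exact le_add_of_nonneg_right (sum_nonneg (fun φ _ => hf φ))
    linarith

/-- the set of values in `B` -/
def newPart {h g : ℕ} (B : Finset ℤ) (φ : Fin h → Fin g → ℤ) : Finset ℤ :=
  ((univ : Finset (Fin h × Fin g)).image (fun p => φ p.1 p.2)) ∩ B

theorem newPart_subset {h g : ℕ} (B : Finset ℤ) (φ : Fin h → Fin g → ℤ) : newPart B φ ⊆ B :=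
  inter_subset_right

theorem newPart_swap {h g : ℕ} (B : Finset ℤ) (φ : Fin h → Fin g → ℤ) :
    newPart B (fun k i => φ i k) = newPart B φ := by
  unfold newPart
  congr 1
  ext x
  simp only [mem_image, mem_univ, true_and, Prod.exists]
  constructor
  · rintro ⟨a, b, rfl⟩; exact ⟨b, a, rfl⟩
  · rintro ⟨a, b, rfl⟩; exact ⟨b, a, rfl⟩

/-- size of the new part -/
theorem card_newPart {h g : ℕ} {R R' : Finset (Fin h)} {C : Finset (Fin g)} {O B : Finset ℤ}
    (hR' : R' ⊆ R) {φ : Fin h → Fin g → ℤ} (hφ : φ ∈ Grid R C (O ∪ B)) (hn : RowNew R R' C O B φ) :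
    R'.card * C.card ≤ (newPart B φ).card := by
  classical
  rw [mem_Grid] at hφ
  obtain ⟨g1, g2, g3, g4⟩ := hφ
  rw [← card_product]
  apply card_le_card_of_injOn (fun p => φ p.1 p.2)
  · intro p hp
    rw [mem_coe, mem_product] at hp
    rw [mem_coe]
    exact mem_inter.2 ⟨mem_image.2 ⟨p, mem_univ _, rfl⟩, hn.1 p.1 hp.1 p.2 hp.2⟩
  · intro p hp p' hp' e
    rw [mem_coe, mem_product] at hp hp'
    have := g3 p.1 (hR' hp.1) p.2 hp.2 p'.1 (hR' hp'.1) p'.2 hp'.2 e
    exact Prod.ext this.1 this.2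

/-- the grid configurations with a new element -/
noncomputable def NewGrid {h g : ℕ} (R : Finset (Fin h)) (C : Finset (Fin g)) (O B : Finset ℤ) :
    Finset (Fin h → Fin g → ℤ) :=
  (Grid R C (O ∪ B)).filter (fun φ => (newPart B φ).Nonempty)

open Classical in
/-- **The expected number of new configurations.** -/
theorem sum_newGrid {h g : ℕ} {R : Finset (Fin h)} {C : Finset (Fin g)} {O B : Finset ℤ} {L M : ℤ}
    (hO : ∀ x ∈ O, 0 ≤ x ∧ x ≤ L) (hB : ∀ x ∈ B, M < x ∧ 16 * x ≤ 17 * M) (hLM : 16 * L ≤ M)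
    (hM : 0 ≤ M) (hR : R.Nonempty) (hC : C.Nonempty) (p : ℝ) (hp0 : 0 ≤ p) (hp1 : p ≤ 1) :
    ∑ φ ∈ NewGrid R C O B, p ^ (newPart B φ).card ≤
      (B.card : ℝ) ^ (R.card + C.card - 1) * p ^ (R.card * C.card) +
      ∑ R' ∈ R.ssubsets.filter (fun R' => R'.Nonempty),
        ((Grid (R \ R') C O).card : ℝ) * (B.card : ℝ) ^ R'.card * p ^ (R'.card * C.card) +
      ∑ C' ∈ C.ssubsets.filter (fun C' => C'.Nonempty),
        ((Grid R (C \ C') O).card : ℝ) * (B.card : ℝ) ^ C'.card * p ^ (C'.card * R.card) := by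
  -- the three classes
  set N0 := (NewGrid R C O B).filter (fun φ => φ ∈ Grid R C B) with hN0
  set NR : Finset (Fin h) → Finset (Fin h → Fin g → ℤ) := fun R' =>
    (NewGrid R C O B).filter (fun φ => RowNew R R' C O B φ) with hNR
  set NC : Finset (Fin g) → Finset (Fin h → Fin g → ℤ) := fun C' =>
    (NewGrid R C O B).filter (fun φ => RowNew C C' R O B (fun k i => φ i k)) with hNC
  have hzero : (0 : ℤ) ∉ B := fun h0 => by have := (hB 0 h0).1; omega
  have hOB : ∀ x ∈ O, x ∉ B := by
    intro x hx hxB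
    have h1 := hO x hx
    have h2 := hB x hxB
    omega
  have hold : ∀ φ ∈ Grid R C (O ∪ B), (∀ i ∈ R, ∀ k ∈ C, φ i k ∈ O) → ¬ (newPart B φ).Nonempty := by
    rintro φ hφ hall ⟨x, hx⟩
    unfold newPart at hx
    rw [mem_inter, mem_image] at hx
    obtain ⟨⟨⟨i, k⟩, _, rfl⟩, hxB⟩ := hx
    rw [mem_Grid] at hφ
    by_cases hik : i ∈ R ∧ k ∈ C
    · exact hOB _ (hall i hik.1 k hik.2) hxB
    · apply hzero
      have := hφ.2.1 i k hik
      simp only [this] at hxB
      exact hxB
  have hcover : NewGrid R C O B ⊆ N0 ∪ (R.ssubsets.filter (fun R' => R'.Nonempty)).biUnion NR ∪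
      (C.ssubsets.filter (fun C' => C'.Nonempty)).biUnion NC := by
    intro φ hφ
    have hφ' := hφ
    unfold NewGrid at hφ'
    rw [mem_filter] at hφ'
    obtain ⟨h1, h2⟩ := hφ'
    have hG := mem_Grid.1 h1
    rw [mem_union, mem_union, mem_biUnion, mem_biUnion]
    rcases pattern hO hB hLM h1 with ⟨R', hR', hn⟩ | ⟨C', hC', hn⟩
    · left
      by_cases he : R' = ∅
      · exfalso
        apply hold φ h1 _ h2
        intro i hi k hk
        apply hn.2 i _ k hk
        rw [he, sdiff_empty]; exact hi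
      · by_cases he2 : R' = R
        · left
          rw [hN0, mem_filter]
          refine ⟨hφ, ?_⟩
          rw [mem_Grid]
          refine ⟨?_, hG.2⟩
          intro i hi k hk
          apply hn.1 i _ k hk
          rw [he2]; exact hi
        · right
          refine ⟨R', ?_, ?_⟩
          · rw [mem_filter, mem_ssubsets]
            exact ⟨hR'.ssubset_of_ne he2, nonempty_iff_ne_empty.2 he⟩
          · rw [hNR, mem_filter]
            exact ⟨hφ, hn⟩
    · by_cases he : C' = ∅
      · exfalso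
        apply hold φ h1 _ h2
        intro i hi k hk
        apply hn.2 k _ i hi
        rw [he, sdiff_empty]; exact hk
      · by_cases he2 : C' = C
        · left; left
          rw [hN0, mem_filter]
          refine ⟨hφ, ?_⟩
          rw [mem_Grid]
          refine ⟨?_, hG.2⟩
          intro i hi k hk
          apply hn.1 k _ i hi
          rw [he2]; exact hk
        · right
          refine ⟨C', ?_, ?_⟩
          · rw [mem_filter, mem_ssubsets]
            exact ⟨hC'.ssubset_of_ne he2, nonempty_iff_ne_empty.2 he⟩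
          · rw [hNC, mem_filter]
            exact ⟨hφ, hn⟩
  have hnn : ∀ φ : Fin h → Fin g → ℤ, 0 ≤ p ^ (newPart B φ).card := fun φ => pow_nonneg hp0 _
  have s1 : ∑ φ ∈ N0, p ^ (newPart B φ).card ≤
      (B.card : ℝ) ^ (R.card + C.card - 1) * p ^ (R.card * C.card) := by
    calc ∑ φ ∈ N0, p ^ (newPart B φ).card ≤ ∑ φ ∈ N0, p ^ (R.card * C.card) := by
          apply sum_le_sum
          intro φ hφ
          rw [hN0, mem_filter] at hφ
          apply pow_le_pow_of_le_one hp0 hp1
          have hφ1 : φ ∈ Grid R C (O ∪ B) := (mem_filter.1 hφ.1).1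
          apply card_newPart subset_rfl hφ1
          have := mem_Grid.1 hφ.2
          exact ⟨this.1, fun i hi => by rw [sdiff_self] at hi; exact absurd hi (notMem_empty _)⟩
      _ = (N0.card : ℝ) * p ^ (R.card * C.card) := by rw [sum_const, nsmul_eq_mul]
      _ ≤ _ := by
          apply mul_le_mul_of_nonneg_right _ (pow_nonneg hp0 _)
          have := card_allNew hR hC N0 (fun φ hφ => (mem_filter.1 hφ).2)
          exact_mod_cast this
  have s2 : ∀ R' ∈ R.ssubsets.filter (fun R' => R'.Nonempty),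
      ∑ φ ∈ NR R', p ^ (newPart B φ).card ≤
      ((Grid (R \ R') C O).card : ℝ) * (B.card : ℝ) ^ R'.card * p ^ (R'.card * C.card) := by
    intro R' hR'
    rw [mem_filter, mem_ssubsets] at hR'
    have hsub : R' ⊆ R := hR'.1.subset
    calc ∑ φ ∈ NR R', p ^ (newPart B φ).card ≤ ∑ φ ∈ NR R', p ^ (R'.card * C.card) := by
          apply sum_le_sum
          intro φ hφ
          simp only [hNR, mem_filter] at hφ
          apply pow_le_pow_of_le_one hp0 hp1
          exact card_newPart hsub (mem_filter.1 hφ.1).1 hφ.2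
      _ = ((NR R').card : ℝ) * p ^ (R'.card * C.card) := by rw [sum_const, nsmul_eq_mul]
      _ ≤ _ := by
          apply mul_le_mul_of_nonneg_right _ (pow_nonneg hp0 _)
          have hne : (R \ R').Nonempty := sdiff_nonempty.2 (fun hc => hR'.1.2 hc)
          have := card_rowNew hsub hne hC (O := O) (B := B) (NR R') (fun φ hφ => by
            simp only [hNR, mem_filter] at hφ
            exact ⟨(mem_filter.1 hφ.1).1, hφ.2⟩)
          exact_mod_cast this
  have s3 : ∀ C' ∈ C.ssubsets.filter (fun C' => C'.Nonempty),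
      ∑ φ ∈ NC C', p ^ (newPart B φ).card ≤
      ((Grid R (C \ C') O).card : ℝ) * (B.card : ℝ) ^ C'.card * p ^ (C'.card * R.card) := by
    intro C' hC'
    rw [mem_filter, mem_ssubsets] at hC'
    have hsub : C' ⊆ C := hC'.1.subset
    calc ∑ φ ∈ NC C', p ^ (newPart B φ).card ≤ ∑ φ ∈ NC C', p ^ (C'.card * R.card) := by
          apply sum_le_sum
          intro φ hφ
          simp only [hNC, mem_filter] at hφ
          apply pow_le_pow_of_le_one hp0 hp1
          rw [← newPart_swap]
          exact card_newPart hsub (mem_Grid_swap.2 (mem_filter.1 hφ.1).1) hφ.2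
      _ = ((NC C').card : ℝ) * p ^ (C'.card * R.card) := by rw [sum_const, nsmul_eq_mul]
      _ ≤ _ := by
          apply mul_le_mul_of_nonneg_right _ (pow_nonneg hp0 _)
          have hne : (C \ C').Nonempty := sdiff_nonempty.2 (fun hc => hC'.1.2 hc)
          have hinj : Function.Injective (fun (φ : Fin h → Fin g → ℤ) => (fun k i => φ i k)) := by
            intro φ ψ e
            funext i k
            exact congrFun (congrFun e k) i
          have := card_rowNew hsub hne hR (O := O) (B := B) ((NC C').image (fun φ => fun k i => φ i k))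
            (fun φ hφ => by
            rw [mem_image] at hφ
            obtain ⟨ψ, hψ, rfl⟩ := hφ
            simp only [hNC, mem_filter] at hψ
            exact ⟨mem_Grid_swap.2 (mem_filter.1 hψ.1).1, hψ.2⟩)
          rw [card_image_of_injective _ hinj, card_Grid_swap] at this
          exact_mod_cast this
  calc ∑ φ ∈ NewGrid R C O B, p ^ (newPart B φ).card
      ≤ ∑ φ ∈ N0 ∪ (R.ssubsets.filter (fun R' => R'.Nonempty)).biUnion NR ∪
        (C.ssubsets.filter (fun C' => C'.Nonempty)).biUnion NC, p ^ (newPart B φ).card :=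
        sum_le_sum_of_subset_of_nonneg hcover (fun φ _ _ => hnn φ)
    _ ≤ ∑ φ ∈ N0, p ^ (newPart B φ).card +
        ∑ φ ∈ (R.ssubsets.filter (fun R' => R'.Nonempty)).biUnion NR, p ^ (newPart B φ).card +
        ∑ φ ∈ (C.ssubsets.filter (fun C' => C'.Nonempty)).biUnion NC, p ^ (newPart B φ).card := by
        have u : ∀ s t : Finset (Fin h → Fin g → ℤ), ∑ φ ∈ s ∪ t, p ^ (newPart B φ).card ≤
            ∑ φ ∈ s, p ^ (newPart B φ).card + ∑ φ ∈ t, p ^ (newPart B φ).card := by
          intro s t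
          rw [← sum_union_inter]
          exact le_add_of_nonneg_right (sum_nonneg (fun φ _ => hnn φ))
        exact (u _ _).trans (by gcongr; exact u _ _)
    _ ≤ ∑ φ ∈ N0, p ^ (newPart B φ).card +
        ∑ R' ∈ R.ssubsets.filter (fun R' => R'.Nonempty), ∑ φ ∈ NR R', p ^ (newPart B φ).card +
        ∑ C' ∈ C.ssubsets.filter (fun C' => C'.Nonempty), ∑ φ ∈ NC C', p ^ (newPart B φ).card := by
        gcongr
        · exact sum_biUnion_le_of_nonneg _ _ _ hnn
        · exact sum_biUnion_le_of_nonneg _ _ _ hnn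
    _ ≤ _ := by
        gcongr with R' hR' C' hC'
        · exact s2 R' hR'
        · exact s3 C' hC'

end Pool.Agent.Q248.CHG
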