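import Pool.Agent.Q248.CHG.Params

/-!
# The infinite sequence
-/

namespace Pool.Agent.Q248.CHG

open Finset

/-- the invariants of the construction -/
def Inv (u v K : ℕ) (O : Finset ℤ) : Prop :=
  (∀ x ∈ O, 1 ≤ x ∧ x ≤ 2 * (2 : ℤ) ^ (QQ u v * K ^ 2)) ∧ ThreeAPFree (O : Set ℤ) ∧
  (∀ (R : Finset (Fin (u + 1))) (C : Finset (Fin (v + 1))), R.Nonempty → C.Nonempty →
    ((Grid R C O).card : ℝ) ≤ (2 : ℝ) ^ ((dd u v : ℤ) * K + Ge u v K R.card C.card)) ∧
  Grid (univ : Finset (Fin (u + 1))) (univ : Finset (Fin (v + 1))) O = ∅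

theorem inv_empty (u v K : ℕ) : Inv u v K ∅ := by
  have he : ∀ (R : Finset (Fin (u + 1))) (C : Finset (Fin (v + 1))), R.Nonempty → C.Nonempty →
      Grid R C ∅ = ∅ := by
    intro R C ⟨i, hi⟩ ⟨k, hk⟩
    rw [eq_empty_iff_forall_notMem]
    intro φ hφ
    rw [mem_Grid] at hφ
    exact notMem_empty _ (hφ.1 i hi k hk)
  refine ⟨fun x hx => absurd hx (notMem_empty _), ?_, ?_, he _ _ univ_nonempty univ_nonempty⟩
  · intro a ha
    rw [coe_empty] at ha
    exact absurd ha (Set.notMem_empty _)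
  · intro R C hR hC
    rw [he R C hR hC, card_empty, Nat.cast_zero]
    positivity

theorem inv_step (u v : ℕ) (hu : 1 ≤ u) (hv : 1 ≤ v) (K : ℕ) (hK : K0 u v ≤ K) (O : Finset ℤ)
    (hO : Inv u v K O) : ∃ O', O ⊆ O' ∧ Inv u v (K + 1) O' ∧
      2 ^ (PP u v * (K + 1) ^ 2 - ss u v * (K + 1)) ≤ 2 * O'.card := by
  obtain ⟨hO1, hO2, hO3, hO4⟩ := hO
  have hQ1 : 3 ≤ QQ u v := by
    unfold QQ; nlinarith
  have hK2 : 2 ≤ K := by unfold K0 at hK; omega
  have hKs : ss u v ≤ K := by unfold K0 at hK; omega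
  have hKc : cc u v ≤ K := by unfold ss at hKs; omega
  have hPQ : PP u v + TT u v = QQ u v := by unfold PP TT QQ; ring
  have hP1 : 1 ≤ PP u v := Nat.mul_le_mul hu hv
  -- sizes
  set E := QQ u v * (K + 1) ^ 2 with hE
  set β := QQ u v * (K + 1) ^ 2 - cc u v * (K + 1) with hβ
  set μ := PP u v * (K + 1) ^ 2 - ss u v * (K + 1) with hμ
  set κ := TT u v * (K + 1) ^ 2 + (dd u v + 2) * (K + 1) with hκ
  have hβ' : cc u v * (K + 1) ≤ QQ u v * (K + 1) ^ 2 := by
    calc cc u v * (K + 1) ≤ (K + 1) * (K + 1) := Nat.mul_le_mul_right _ (by omega)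
      _ = 1 * (K + 1) ^ 2 := by ring
      _ ≤ QQ u v * (K + 1) ^ 2 := Nat.mul_le_mul_right _ (by omega)
  have hμ' : ss u v * (K + 1) ≤ PP u v * (K + 1) ^ 2 := by
    calc ss u v * (K + 1) ≤ (K + 1) * (K + 1) := Nat.mul_le_mul_right _ (by omega)
      _ = 1 * (K + 1) ^ 2 := by ring
      _ ≤ PP u v * (K + 1) ^ 2 := Nat.mul_le_mul_right _ (by omega)
  have hβz : (β : ℤ) = QQ u v * ((K : ℤ) + 1) ^ 2 - cc u v * ((K : ℤ) + 1) := by
    rw [hβ, Nat.cast_sub hβ']; push_cast; ring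
  have hμz : (μ : ℤ) = PP u v * ((K : ℤ) + 1) ^ 2 - ss u v * ((K : ℤ) + 1) := by
    rw [hμ, Nat.cast_sub hμ']; push_cast; ring
  have hκz : (κ : ℤ) = TT u v * ((K : ℤ) + 1) ^ 2 + (dd u v + 2) * ((K : ℤ) + 1) := by
    rw [hκ]; push_cast; ring
  have hPQz : (PP u v : ℤ) + TT u v = QQ u v := by exact_mod_cast hPQ
  have hssz : (ss u v : ℤ) = cc u v + dd u v + 2 := by unfold ss; push_cast; ring
  have hsum : μ + κ = β := by
    have : (μ : ℤ) + κ = β := by
      rw [hμz, hκz, hβz, ← hPQz, hssz]; ring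
    exact_mod_cast this
  -- the Behrend block
  have hE4 : 4 ≤ E := by rw [hE]; nlinarith
  obtain ⟨B, hBc, hBf, hBr⟩ := behrend_block E (2 ^ β) hE4 (by
    have := behrend_size (QQ u v) (K + 1) (by omega) (by unfold cc at hKc; omega)
    exact this)
  -- distances
  have hLM : 16 * (2 * (2 : ℤ) ^ (QQ u v * K ^ 2)) ≤ 2 ^ E := by
    have h1 : QQ u v * K ^ 2 + 5 ≤ E := by rw [hE]; nlinarith
    calc 16 * (2 * (2 : ℤ) ^ (QQ u v * K ^ 2)) = 2 ^ (QQ u v * K ^ 2 + 5) := by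
          rw [pow_add]; ring
      _ ≤ 2 ^ E := pow_le_pow_right₀ (by norm_num) h1
  have hO' : ∀ x ∈ O, 0 ≤ x ∧ x ≤ 2 * (2 : ℤ) ^ (QQ u v * K ^ 2) := fun x hx => by
    have := hO1 x hx
    exact ⟨by omega, this.2⟩
  have hMpos : (0 : ℤ) ≤ 2 ^ E := by positivity
  -- exponents
  have hG : ∀ j l : ℤ, Ge u v (K + 1) j l = β * (j + l - 1) - κ * (j * l) := by
    intro j l
    unfold Ge
    rw [hβz, hκz]
  have two : (2 : ℝ) ≠ 0 := by norm_num
  have hpow : ∀ n r : ℕ, ((B.card : ℝ)) ^ n * (1 / ((2 ^ κ : ℕ) : ℝ)) ^ r =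
      (2 : ℝ) ^ ((β : ℤ) * n - κ * r) := by
    intro n r
    rw [hBc]
    push_cast
    rw [zpow_sub₀ two, one_div, inv_pow, ← div_eq_mul_inv, ← pow_mul, ← pow_mul]
    norm_cast
  -- the bounds
  set U : Finset (Fin (u + 1)) → Finset (Fin (v + 1)) → ℝ := fun R C =>
    (2 : ℝ) ^ ((dd u v : ℤ) * K + Ge u v (K + 1) R.card C.card) with hU
  have hcardR : ∀ R : Finset (Fin (u + 1)), R.card ≤ u + 1 := fun R =>
    (card_le_univ R).trans (by rw [Fintype.card_fin])
  have hcardC : ∀ C : Finset (Fin (v + 1)), C.card ≤ v + 1 := fun C =>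
    (card_le_univ C).trans (by rw [Fintype.card_fin])
  have hold : ∀ (R : Finset (Fin (u + 1))) (C : Finset (Fin (v + 1))), R.Nonempty → C.Nonempty →
      ((Grid R C O).card : ℝ) ≤ (2 : ℝ) ^ ((dd u v : ℤ) * K + Ge u v (K + 1) R.card C.card) := by
    intro R C hR hC
    refine (hO3 R C hR hC).trans ?_
    apply zpow_le_zpow_right₀ (by norm_num)
    have := Ge_mono u v hu hv K hK R.card C.card (card_pos.2 hR) (hcardR R) (card_pos.2 hC)
      (hcardC C)
    linarith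
  have hd : (2 : ℝ) ^ (u + 1 + (v + 1)) * ((2 : ℝ) ^ (u + 1) + 2 ^ (v + 1)) ≤
      (2 : ℝ) ^ ((dd u v : ℤ) - 1) := by
    have h1 : (2 : ℝ) ^ (u + 1) ≤ 2 ^ (u + v + 2) := pow_le_pow_right₀ (by norm_num) (by omega)
    have h2 : (2 : ℝ) ^ (v + 1) ≤ 2 ^ (u + v + 2) := pow_le_pow_right₀ (by norm_num) (by omega)
    calc (2 : ℝ) ^ (u + 1 + (v + 1)) * ((2 : ℝ) ^ (u + 1) + 2 ^ (v + 1))
        ≤ (2 : ℝ) ^ (u + v + 2) * (2 * 2 ^ (u + v + 2)) := by
          rw [show u + 1 + (v + 1) = u + v + 2 by ring]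
          apply mul_le_mul_of_nonneg_left _ (by positivity)
          linarith
      _ = (2 : ℝ) ^ (2 * (u + v) + 5) := by
          rw [show 2 * (u + v) + 5 = (u + v + 2) + 1 + (u + v + 2) by ring, pow_add, pow_add]
          ring
      _ = (2 : ℝ) ^ ((dd u v : ℤ) - 1) := by
          rw [← zpow_natCast]
          congr 1
          unfold dd; push_cast; ring
  have hfullexp : (dd u v : ℤ) - 1 + (dd u v * K + Ge u v (K + 1) ((u + 1 : ℕ) : ℤ) ((v + 1 : ℕ) : ℤ)) ≤
      μ - 1 := by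
    have h1 : Ge u v (K + 1) ((u + 1 : ℕ) : ℤ) ((v + 1 : ℕ) : ℤ) =
        β * (TT u v + 1) - κ * (QQ u v + 1) := by
      rw [hG]; unfold TT QQ; push_cast; ring
    have h2 : (β : ℤ) * TT u v - κ * QQ u v =
        - ((K : ℤ) + 1) * (cc u v * TT u v + (dd u v + 2) * QQ u v) := by
      rw [hβz, hκz]; ring
    have h3 : (μ : ℤ) = β - κ := by
      have : (μ : ℤ) + κ = β := by exact_mod_cast hsum
      linarith
    have h4 : (dd u v : ℤ) ≤ cc u v * TT u v + (dd u v + 2) * QQ u v := by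
      have : dd u v ≤ cc u v * TT u v + (dd u v + 2) * QQ u v := by
        have : (dd u v + 2) * 1 ≤ (dd u v + 2) * QQ u v := Nat.mul_le_mul_left _ (by omega)
        have h0 : 0 ≤ cc u v * TT u v := Nat.zero_le _
        omega
      exact_mod_cast this
    have h5 : ((K : ℤ) + 1) * dd u v ≤ ((K : ℤ) + 1) * (cc u v * TT u v + (dd u v + 2) * QQ u v) :=
      mul_le_mul_of_nonneg_left h4 (by positivity)
    rw [h1, h3]
    nlinarith
  have hUpos : ∀ R C, 0 < U R C := fun R C => by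
    simp only [hU]; positivity
  obtain ⟨A, hAB, hAm, hAfull, hAc⟩ := abstract_step (h := u + 1) (g := v + 1) hO' hBr hLM hMpos
    (2 ^ μ) (2 ^ κ) (by positivity) (by rw [hBc, ← pow_add, hsum]) hO4 (by omega) (by omega) U
    (fun R C _ _ => hUpos R C)
    (by
      intro R C hR hC
      rw [hpow]
      simp only [hU]
      apply zpow_le_zpow_right₀ (by norm_num)
      have h1 : ((R.card + C.card - 1 : ℕ) : ℤ) = (R.card : ℤ) + C.card - 1 := by
        have := card_pos.2 hR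
        rw [Nat.cast_sub (by omega)]; push_cast; ring
      have h2 : ((R.card * C.card : ℕ) : ℤ) = (R.card : ℤ) * C.card := by push_cast; ring
      rw [h1, h2, hG]
      have : (0 : ℤ) ≤ dd u v * K := by positivity
      linarith)
    (by
      intro R C hR hC R' hR' hR'n
      have hsub := hR'.subset
      have hne : (R \ R').Nonempty := sdiff_nonempty.2 (fun hc => hR'.2 hc)
      have h1 := hold (R \ R') C hne hC
      rw [mul_assoc, hpow]
      calc _ ≤ (2 : ℝ) ^ ((dd u v : ℤ) * K + Ge u v (K + 1) (R \ R').card C.card) *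
            (2 : ℝ) ^ ((β : ℤ) * R'.card - κ * ((R'.card * C.card : ℕ) : ℤ)) :=
            mul_le_mul_of_nonneg_right h1 (by positivity)
        _ = U R C := by
            simp only [hU]
            rw [← zpow_add₀ two]
            congr 1
            have h2 : (((R \ R').card : ℕ) : ℤ) = (R.card : ℤ) - R'.card := by
              rw [card_sdiff_of_subset hsub, Nat.cast_sub (card_le_card hsub)]
            rw [h2, hG, hG]
            push_cast
            ring)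
    (by
      intro R C hR hC C' hC' hC'n
      have hsub := hC'.subset
      have hne : (C \ C').Nonempty := sdiff_nonempty.2 (fun hc => hC'.2 hc)
      have h1 := hold R (C \ C') hR hne
      rw [mul_assoc, hpow]
      calc _ ≤ (2 : ℝ) ^ ((dd u v : ℤ) * K + Ge u v (K + 1) R.card (C \ C').card) *
            (2 : ℝ) ^ ((β : ℤ) * C'.card - κ * ((C'.card * R.card : ℕ) : ℤ)) :=
            mul_le_mul_of_nonneg_right h1 (by positivity)
        _ = U R C := by
            simp only [hU]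
            rw [← zpow_add₀ two]
            congr 1
            have h2 : (((C \ C').card : ℕ) : ℤ) = (C.card : ℤ) - C'.card := by
              rw [card_sdiff_of_subset hsub, Nat.cast_sub (card_le_card hsub)]
            rw [h2, hG, hG]
            push_cast
            ring)
    (by
      simp only [hU]
      rw [card_univ, card_univ, Fintype.card_fin, Fintype.card_fin]
      calc _ ≤ (2 : ℝ) ^ ((dd u v : ℤ) - 1) *
            (2 : ℝ) ^ ((dd u v : ℤ) * K + Ge u v (K + 1) ((u + 1 : ℕ) : ℤ) ((v + 1 : ℕ) : ℤ)) :=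
            mul_le_mul_of_nonneg_right hd (by positivity)
        _ = (2 : ℝ) ^ ((dd u v : ℤ) - 1 + (dd u v * K +
              Ge u v (K + 1) ((u + 1 : ℕ) : ℤ) ((v + 1 : ℕ) : ℤ))) := by
            rw [← zpow_add₀ two]
        _ ≤ (2 : ℝ) ^ ((μ : ℤ) - 1) := zpow_le_zpow_right₀ (by norm_num) hfullexp
        _ = ((2 ^ μ : ℕ) : ℝ) / 2 := by
            rw [zpow_sub_one₀ two]
            push_cast
            rw [div_eq_mul_inv]
            norm_cast)
  refine ⟨O ∪ A, subset_union_left, ⟨?_, ?_, ?_, hAfull⟩, ?_⟩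
  · intro x hx
    rw [mem_union] at hx
    rcases hx with hx | hx
    · have h1 := hO1 x hx
      refine ⟨h1.1, ?_⟩
      rw [← hE]
      omega
    · have h1 := hBr x (hAB hx)
      have h2 : (1 : ℤ) ≤ 2 ^ E := one_le_pow₀ (by norm_num)
      rw [← hE]
      omega
  · apply threeAPFree_union hO' (fun x hx => hBr x (hAB hx)) hLM hMpos hO2
    exact hBf.mono (coe_subset.2 hAB)
  · intro R C hR hC
    have h1 := hAc R C hR hC
    have h2 := hold R C hR hC
    have h3 : (2 : ℝ) ^ (u + 1 + (v + 1)) * ((2 : ℝ) ^ (u + 1) + 2 ^ (v + 1)) * U R C ≤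
        (2 : ℝ) ^ ((dd u v : ℤ) - 1) * U R C := mul_le_mul_of_nonneg_right hd (hUpos R C).le
    have h4 : (1 : ℝ) ≤ (2 : ℝ) ^ ((dd u v : ℤ) - 1) := by
      apply one_le_zpow₀ (by norm_num)
      unfold dd; push_cast; linarith
    have h5 : (2 : ℝ) ^ ((dd u v : ℤ) * ((K + 1 : ℕ) : ℤ) + Ge u v ((K + 1 : ℕ) : ℤ) R.card C.card) =
        2 * (2 : ℝ) ^ ((dd u v : ℤ) - 1) * U R C := by
      simp only [hU]
      have : (2 : ℝ) * (2 : ℝ) ^ ((dd u v : ℤ) - 1) = (2 : ℝ) ^ (dd u v : ℤ) := by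
        rw [← zpow_one_add₀ two]; congr 1; ring
      rw [this, ← zpow_add₀ two]
      congr 1
      push_cast
      ring
    rw [h5]
    have hUp := hUpos R C
    have h6 : U R C ≤ (2 : ℝ) ^ ((dd u v : ℤ) - 1) * U R C := le_mul_of_one_le_left hUp.le h4
    have h7 : ((Grid R C O).card : ℝ) ≤ U R C := h2
    linarith
  · have : A.card ≤ (O ∪ A).card := card_le_card subset_union_right
    omega

/-- the sequence of finite sets -/
theorem exists_seq (u v : ℕ) (hu : 1 ≤ u) (hv : 1 ≤ v) :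
    ∃ O : ℕ → Finset ℤ, (∀ K, K0 u v ≤ K → O K ⊆ O (K + 1)) ∧ (∀ K, K0 u v ≤ K → Inv u v K (O K)) ∧
      ∀ K, K0 u v ≤ K → 2 ^ (PP u v * (K + 1) ^ 2 - ss u v * (K + 1)) ≤ 2 * (O (K + 1)).card := by
  have hstep : ∀ (n : ℕ) (x : {O : Finset ℤ // Inv u v (K0 u v + n) O}),
      ∃ y : {O : Finset ℤ // Inv u v (K0 u v + (n + 1)) O}, x.1 ⊆ y.1 ∧
        2 ^ (PP u v * (K0 u v + n + 1) ^ 2 - ss u v * (K0 u v + n + 1)) ≤ 2 * y.1.card := by
    intro n x
    obtain ⟨O', h1, h2, h3⟩ := inv_step u v hu hv (K0 u v + n) (by omega) x.1 x.2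
    exact ⟨⟨O', h2⟩, h1, h3⟩
  choose f hf1 hf2 using hstep
  let s : (n : ℕ) → {O : Finset ℤ // Inv u v (K0 u v + n) O} :=
    fun n => Nat.rec (motive := fun n => {O : Finset ℤ // Inv u v (K0 u v + n) O})
      ⟨∅, inv_empty u v _⟩ (fun n x => f n x) n
  have hs : ∀ n, s (n + 1) = f n (s n) := fun n => rfl
  refine ⟨fun K => (s (K - K0 u v)).1, ?_, ?_, ?_⟩
  · intro K hK
    obtain ⟨n, rfl⟩ : ∃ n, K = K0 u v + n := ⟨K - K0 u v, by omega⟩
    show (s (K0 u v + n - K0 u v)).1 ⊆ (s (K0 u v + n + 1 - K0 u v)).1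
    rw [show K0 u v + n - K0 u v = n by omega, show K0 u v + n + 1 - K0 u v = n + 1 by omega, hs]
    exact hf1 n (s n)
  · intro K hK
    obtain ⟨n, rfl⟩ : ∃ n, K = K0 u v + n := ⟨K - K0 u v, by omega⟩
    show Inv u v (K0 u v + n) (s (K0 u v + n - K0 u v)).1
    rw [show K0 u v + n - K0 u v = n by omega]
    exact (s n).2
  · intro K hK
    obtain ⟨n, rfl⟩ : ∃ n, K = K0 u v + n := ⟨K - K0 u v, by omega⟩
    show 2 ^ (PP u v * (K0 u v + n + 1) ^ 2 - ss u v * (K0 u v + n + 1)) ≤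
      2 * (s (K0 u v + n + 1 - K0 u v)).1.card
    rw [show K0 u v + n + 1 - K0 u v = n + 1 by omega, hs]
    exact hf2 n (s n)

/-- the arithmetic of the counting function -/
theorem final_arith (P Q s : ℕ) (hP : 1 ≤ P) (hQ : 1 ≤ Q) (ε : ℝ) (hε : 0 < ε) (K : ℕ)
    (hK1 : 1 ≤ K) (hK : ((3 * P + 2 + s : ℕ) : ℝ) ≤ ε * Q * K) (hKs : s * K ≤ P * K ^ 2) (n : ℕ)
    (hn1 : 2 * 2 ^ (Q * K ^ 2) ≤ n) (hn2 : n < 2 * 2 ^ (Q * (K + 1) ^ 2)) (c : ℕ) (hPQ : P ≤ Q)
    (hc : 2 ^ (P * K ^ 2 - s * K) ≤ 2 * c) :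
    (n : ℝ) ^ ((P : ℝ) / Q - ε) ≤ c := by
  have hnpos : (0 : ℝ) < n := by
    have : 0 < n := lt_of_lt_of_le (by positivity) hn1
    exact_mod_cast this
  have hQ' : (0 : ℝ) < Q := by exact_mod_cast hQ
  have h1 : (n : ℝ) ^ ((P : ℝ) / Q) ≤ (2 : ℝ) ^ ((P : ℝ) * (K + 1) ^ 2 + 1) := by
    have h2 : (n : ℝ) ≤ (2 : ℝ) ^ ((Q : ℝ) * (K + 1) ^ 2 + 1) := by
      have : (n : ℝ) ≤ ((2 * 2 ^ (Q * (K + 1) ^ 2) : ℕ) : ℝ) := by exact_mod_cast hn2.le
      refine this.trans (le_of_eq ?_)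
      rw [Real.rpow_add (by norm_num), Real.rpow_one]
      have e : ((Q : ℝ) * (K + 1) ^ 2) = ((Q * (K + 1) ^ 2 : ℕ) : ℝ) := by push_cast; ring
      rw [e, Real.rpow_natCast]
      push_cast
      ring
    calc (n : ℝ) ^ ((P : ℝ) / Q) ≤ ((2 : ℝ) ^ ((Q : ℝ) * (K + 1) ^ 2 + 1)) ^ ((P : ℝ) / Q) :=
          Real.rpow_le_rpow hnpos.le h2 (by positivity)
      _ = (2 : ℝ) ^ (((Q : ℝ) * (K + 1) ^ 2 + 1) * ((P : ℝ) / Q)) := by
          rw [← Real.rpow_mul (by norm_num)]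
      _ ≤ _ := by
          apply Real.rpow_le_rpow_of_exponent_le (by norm_num)
          have e : ((Q : ℝ) * (K + 1) ^ 2 + 1) * ((P : ℝ) / Q) = (P : ℝ) * (K + 1) ^ 2 + P / Q := by
            field_simp
          rw [e]
          have : (P : ℝ) / Q ≤ 1 := by
            rw [div_le_one hQ']
            exact_mod_cast hPQ
          linarith
  have h2 : (n : ℝ) ^ (-ε) ≤ (2 : ℝ) ^ (-(ε * (Q * K ^ 2))) := by
    have h3 : (2 : ℝ) ^ ((Q : ℝ) * K ^ 2) ≤ n := by
      have : ((2 * 2 ^ (Q * K ^ 2) : ℕ) : ℝ) ≤ n := by exact_mod_cast hn1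
      have e : ((Q : ℝ) * K ^ 2) = ((Q * K ^ 2 : ℕ) : ℝ) := by push_cast; ring
      rw [e, Real.rpow_natCast]
      push_cast at this
      have h4 : (0 : ℝ) < 2 ^ (Q * K ^ 2) := by positivity
      linarith
    calc (n : ℝ) ^ (-ε) ≤ ((2 : ℝ) ^ ((Q : ℝ) * K ^ 2)) ^ (-ε) :=
          Real.rpow_le_rpow_of_nonpos (by positivity) h3 (by linarith)
      _ = _ := by
          rw [← Real.rpow_mul (by norm_num)]
          congr 1; ring
  have h3 : (2 : ℝ) ^ ((P : ℝ) * K ^ 2 - s * K - 1) ≤ c := by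
    have h4 : ((2 ^ (P * K ^ 2 - s * K) : ℕ) : ℝ) ≤ 2 * c := by exact_mod_cast hc
    rw [Real.rpow_sub (by norm_num), Real.rpow_one]
    have e : ((P : ℝ) * K ^ 2 - s * K) = ((P * K ^ 2 - s * K : ℕ) : ℝ) := by
      rw [Nat.cast_sub hKs]; push_cast; ring
    rw [e, Real.rpow_natCast]
    push_cast at h4
    linarith
  calc (n : ℝ) ^ ((P : ℝ) / Q - ε) = (n : ℝ) ^ ((P : ℝ) / Q) * (n : ℝ) ^ (-ε) := by
        rw [← Real.rpow_add hnpos]; congr 1
    _ ≤ (2 : ℝ) ^ ((P : ℝ) * (K + 1) ^ 2 + 1) * (2 : ℝ) ^ (-(ε * (Q * K ^ 2))) :=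
        mul_le_mul h1 h2 (by positivity) (by positivity)
    _ = (2 : ℝ) ^ ((P : ℝ) * (K + 1) ^ 2 + 1 + -(ε * (Q * K ^ 2))) :=
        (Real.rpow_add (by norm_num) _ _).symm
    _ ≤ (2 : ℝ) ^ ((P : ℝ) * K ^ 2 - s * K - 1) := by
        apply Real.rpow_le_rpow_of_exponent_le (by norm_num)
        have hK1' : (1 : ℝ) ≤ K := by exact_mod_cast hK1
        have h5 := mul_le_mul_of_nonneg_right hK (by positivity : (0 : ℝ) ≤ K)
        push_cast at h5
        have h6 : (1 : ℝ) ≤ P := by exact_mod_cast hP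
        nlinarith
    _ ≤ c := h3

/-- **Dense infinite `C_h[g]`-sequences.** -/
theorem main (g h : ℕ) (hh : 2 ≤ h) (hg : 2 ≤ g) :
    ∃ A : Set ℤ, A ⊆ {n : ℤ | 1 ≤ n} ∧ A.Infinite ∧
      (∀ X : Finset ℤ, X.card = h → ∀ k : Fin g → ℤ, Function.Injective k →
        ¬ (∀ i : Fin g, ∀ x ∈ X, x + k i ∈ A)) ∧
      ∀ ε : ℝ, 0 < ε → ∀ᶠ n : ℕ in Filter.atTop,
        (n : ℝ) ^ ((1 - 1 / (h : ℝ)) * (1 - 1 / (g : ℝ)) *
                (1 + 1 / ((h : ℝ) * (g : ℝ) - 1)) - ε)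
              ≤ ((A ∩ Set.Icc (1 : ℤ) (n : ℤ)).ncard : ℝ) := by
  obtain ⟨u, rfl⟩ : ∃ u, h = u + 1 := ⟨h - 1, by omega⟩
  obtain ⟨v, rfl⟩ : ∃ v, g = v + 1 := ⟨g - 1, by omega⟩
  have hu : 1 ≤ u := by omega
  have hv : 1 ≤ v := by omega
  obtain ⟨O, hO1, hO2, hO3⟩ := exists_seq u v hu hv
  have hmono : ∀ K L, K0 u v ≤ K → K ≤ L → O K ⊆ O L := by
    intro K L hK hKL
    induction L, hKL using Nat.le_induction with
    | base => exact subset_rfl
    | succ L hL ih => exact ih.trans (hO1 L (by omega))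
  have hQ3 : 3 ≤ QQ u v := by unfold QQ; nlinarith
  have hP1 : 1 ≤ PP u v := Nat.mul_le_mul hu hv
  have hPQ : PP u v ≤ QQ u v := by unfold PP QQ; omega
  set A : Set ℤ := {x | ∃ K, K0 u v ≤ K ∧ x ∈ O K} with hA
  have hOA : ∀ K, K0 u v ≤ K → ((O K : Finset ℤ) : Set ℤ) ⊆ A := fun K hK x hx => ⟨K, hK, hx⟩
  have hcount : ∀ ε : ℝ, 0 < ε → ∀ᶠ n : ℕ in Filter.atTop,
        (n : ℝ) ^ ((1 - 1 / ((u + 1 : ℕ) : ℝ)) * (1 - 1 / ((v + 1 : ℕ) : ℝ)) *
                (1 + 1 / (((u + 1 : ℕ) : ℝ) * ((v + 1 : ℕ) : ℝ) - 1)) - ε)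
              ≤ ((A ∩ Set.Icc (1 : ℤ) (n : ℤ)).ncard : ℝ) := by
    intro ε hε
    have hexp : (1 - 1 / ((u + 1 : ℕ) : ℝ)) * (1 - 1 / ((v + 1 : ℕ) : ℝ)) *
                (1 + 1 / (((u + 1 : ℕ) : ℝ) * ((v + 1 : ℕ) : ℝ) - 1)) = (PP u v : ℝ) / QQ u v := by
      have hu' : (1 : ℝ) ≤ u := by exact_mod_cast hu
      have hv' : (1 : ℝ) ≤ v := by exact_mod_cast hv
      unfold PP QQ
      push_cast
      have e1 : ((u : ℝ) + 1) * (v + 1) - 1 = u * v + u + v := by ring
      rw [e1]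
      have n1 : (u : ℝ) + 1 ≠ 0 := by positivity
      have n2 : (v : ℝ) + 1 ≠ 0 := by positivity
      have n3 : (u : ℝ) * v + u + v ≠ 0 := by positivity
      field_simp
      ring
    rw [hexp]
    -- the threshold
    obtain ⟨K1, hK1⟩ := exists_nat_ge (((3 * PP u v + 2 + ss u v : ℕ) : ℝ) / (ε * QQ u v))
    set K2 := max K1 (K0 u v + 1) with hK2
    rw [Filter.eventually_atTop]
    refine ⟨2 * 2 ^ (QQ u v * K2 ^ 2), ?_⟩
    intro n hn
    -- the block of n
    have hex : ∃ K, n < 2 * 2 ^ (QQ u v * K ^ 2) := by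
      refine ⟨n, ?_⟩
      calc n < 2 ^ n := Nat.lt_two_pow_self
        _ ≤ 2 ^ (QQ u v * n ^ 2) := by
            apply Nat.pow_le_pow_right (by norm_num)
            nlinarith [Nat.mul_le_mul (show 1 ≤ QQ u v by omega) (Nat.le_self_pow (n := 2) (by norm_num) n)]
        _ ≤ 2 * 2 ^ (QQ u v * n ^ 2) := by omega
    classical
    set K3 := Nat.find hex with hK3
    have hK3s : n < 2 * 2 ^ (QQ u v * K3 ^ 2) := Nat.find_spec hex
    have hK23 : K2 < K3 := by
      by_contra hcon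
      push Not at hcon
      have : 2 * 2 ^ (QQ u v * K3 ^ 2) ≤ 2 * 2 ^ (QQ u v * K2 ^ 2) := by
        apply Nat.mul_le_mul_left
        apply Nat.pow_le_pow_right (by norm_num)
        apply Nat.mul_le_mul_left
        exact Nat.pow_le_pow_left hcon 2
      omega
    obtain ⟨K, hKK⟩ : ∃ K, K3 = K + 1 := ⟨K3 - 1, by omega⟩
    have hKn : 2 * 2 ^ (QQ u v * K ^ 2) ≤ n := by
      by_contra hcon
      push Not at hcon
      have := Nat.find_min' hex hcon
      omega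
    have hKK2 : K2 ≤ K := by omega
    have hKK0 : K0 u v + 1 ≤ K := le_trans (le_max_right _ _) hKK2
    obtain ⟨K', rfl⟩ : ∃ K', K = K' + 1 := ⟨K - 1, by omega⟩
    have hKs : ss u v ≤ K' + 1 := by unfold K0 at hKK0; omega
    apply final_arith (PP u v) (QQ u v) (ss u v) hP1 (by omega) ε hε (K' + 1) (by omega) ?_ ?_ n
      hKn (by rw [← hKK]; exact hK3s) _ hPQ ?_
    · have h1 : (((3 * PP u v + 2 + ss u v : ℕ) : ℝ) / (ε * QQ u v)) ≤ ((K' + 1 : ℕ) : ℝ) := by
        refine hK1.trans ?_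
        have : K1 ≤ K' + 1 := le_trans (le_max_left _ _) hKK2
        exact_mod_cast this
      rw [div_le_iff₀ (by positivity)] at h1
      linarith
    · calc ss u v * (K' + 1) ≤ (K' + 1) * (K' + 1) := Nat.mul_le_mul_right _ hKs
        _ = 1 * (K' + 1) ^ 2 := by ring
        _ ≤ PP u v * (K' + 1) ^ 2 := Nat.mul_le_mul_right _ hP1
    · refine (hO3 K' (by omega)).trans ?_
      apply Nat.mul_le_mul_left
      rw [← Set.ncard_coe_finset]
      apply Set.ncard_le_ncard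
      · intro x hx
        refine ⟨hOA _ (by omega) hx, ?_⟩
        have h1 := (hO2 (K' + 1) (by omega)).1 x (mem_coe.1 hx)
        refine ⟨h1.1, h1.2.trans ?_⟩
        exact_mod_cast hKn
      · exact (Set.finite_Icc _ _).subset Set.inter_subset_right
  refine ⟨A, ?_, ?_, ?_, hcount⟩
  · rintro x ⟨K, hK, hx⟩
    exact ((hO2 K hK).1 x hx).1
  · intro hfin
    -- the sizes are unbounded
    have hb : ∀ K, K0 u v ≤ K → (O K).card ≤ A.ncard := by
      intro K hK
      rw [← Set.ncard_coe_finset]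
      exact Set.ncard_le_ncard (hOA K hK) hfin
    have hlarge := hO3 (K0 u v + A.ncard + 2) (by omega)
    have h1 := hb (K0 u v + A.ncard + 2 + 1) (by omega)
    have h2 : A.ncard + 2 ≤ PP u v * (K0 u v + A.ncard + 2 + 1) ^ 2 -
        ss u v * (K0 u v + A.ncard + 2 + 1) := by
      have h3 : ss u v ≤ K0 u v := by unfold K0; omega
      have h4 : ss u v * (K0 u v + A.ncard + 2 + 1) + (A.ncard + 2) ≤
          PP u v * (K0 u v + A.ncard + 2 + 1) ^ 2 := by
        calc ss u v * (K0 u v + A.ncard + 2 + 1) + (A.ncard + 2)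
            ≤ K0 u v * (K0 u v + A.ncard + 2 + 1) + (A.ncard + 2 + 1) * (K0 u v + A.ncard + 2 + 1) := by
              apply Nat.add_le_add (Nat.mul_le_mul_right _ h3)
              nlinarith
          _ = 1 * (K0 u v + A.ncard + 2 + 1) ^ 2 := by ring
          _ ≤ _ := Nat.mul_le_mul_right _ hP1
      omega
    have h3 : 2 ^ (A.ncard + 2) ≤ 2 * A.ncard :=
      (Nat.pow_le_pow_right (by norm_num) h2).trans (hlarge.trans (Nat.mul_le_mul_left _ h1))
    have h4 : A.ncard < 2 ^ A.ncard := Nat.lt_two_pow_self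
    rw [pow_add] at h3
    omega
  · intro X hX k hk hall
    -- everything lies in one finite stage
    have hstage : ∀ s : Finset ℤ, (∀ x ∈ s, x ∈ A) → ∃ K, K0 u v ≤ K ∧ s ⊆ O K := by
      intro s
      induction s using Finset.induction_on with
      | empty => exact fun _ => ⟨K0 u v, le_rfl, empty_subset _⟩
      | insert a s ha ih =>
        intro hs
        obtain ⟨K, hK, hsK⟩ := ih (fun x hx => hs x (mem_insert_of_mem hx))
        obtain ⟨K', hK', haK⟩ := hs a (mem_insert_self a s)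
        refine ⟨max K K', le_trans hK (le_max_left _ _), ?_⟩
        intro x hx
        rw [mem_insert] at hx
        rcases hx with rfl | hx
        · exact hmono K' _ hK' (le_max_right _ _) haK
        · exact hmono K _ hK (le_max_left _ _) (hsK hx)
    obtain ⟨K, hK, hsub⟩ := hstage ((X ×ˢ (univ : Finset (Fin (v + 1)))).image
      (fun p => p.1 + k p.2)) (by
        intro x hx
        rw [mem_image] at hx
        obtain ⟨⟨a, i⟩, hp, rfl⟩ := hx
        exact hall i a (mem_product.1 hp).1)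
    have hmem : ∀ x ∈ X, ∀ i, x + k i ∈ O K := fun x hx i =>
      hsub (mem_image.2 ⟨(x, i), mem_product.2 ⟨hx, mem_univ _⟩, rfl⟩)
    obtain ⟨-, hfree, -, hfull⟩ := hO2 K hK
    set e := X.orderEmbOfFin hX with he
    have heX : ∀ i, e i ∈ X := fun i => X.orderEmbOfFin_mem hX i
    have hφ : (fun (i : Fin (u + 1)) (j : Fin (v + 1)) => e i + k j) ∈
        Grid (univ : Finset (Fin (u + 1))) (univ : Finset (Fin (v + 1))) (O K) := by
      rw [mem_Grid]
      refine ⟨?_, ?_, ?_, ?_⟩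
      · intro i _ j _
        exact hmem _ (heX i) j
      · intro i j hij
        exact absurd ⟨mem_univ _, mem_univ _⟩ hij
      · intro i _ j _ i' _ j' _ heq
        have heq' : e i + k j = e i' + k j' := heq
        by_cases hj : j = j'
        · subst hj
          refine ⟨?_, rfl⟩
          apply e.injective
          linarith
        · exfalso
          -- a three-term progression
          have h1 := hmem _ (heX i) j'
          have h2 := hmem _ (heX i) j
          have h3 := hmem _ (heX i') j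
          have h4 := hfree (mem_coe.2 h1) (mem_coe.2 h2) (mem_coe.2 h3) (by linarith)
          exact hj (hk (by linarith))
      · intro i _ i' _ j _ j' _
        show e i + k j + (e i' + k j') = e i + k j' + (e i' + k j)
        ring
    rw [hfull] at hφ
    exact notMem_empty _ hφ

end Pool.Agent.Q248.CHG
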