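import Pool.Agent.Q248.CHG.Step

/-!
# Parameters, Behrend sets, and the concrete step
-/

namespace Pool.Agent.Q248.CHG

open Finset

/-- Behrend sets just above `M = 2 ^ E`. -/
theorem behrend_block (E b : ℕ) (hE : 4 ≤ E) (hb : b ≤ rothNumberNat (2 ^ (E - 4))) :
    ∃ B : Finset ℤ, B.card = b ∧ ThreeAPFree (B : Set ℤ) ∧
      ∀ x ∈ B, (2 : ℤ) ^ E < x ∧ 16 * x ≤ 17 * (2 : ℤ) ^ E := by
  obtain ⟨t, ht, htc, htf⟩ := rothNumberNat_spec (2 ^ (E - 4))
  obtain ⟨t', ht', ht'c⟩ := exists_subset_card_eq (htc.symm ▸ hb)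
  have hinj : Function.Injective (fun x : ℕ => ((x : ℤ) + 2 ^ E + 1)) := by
    intro x y hxy
    have : (x : ℤ) + 2 ^ E + 1 = (y : ℤ) + 2 ^ E + 1 := hxy
    omega
  refine ⟨t'.image (fun x : ℕ => ((x : ℤ) + 2 ^ E + 1)), ?_, ?_, ?_⟩
  · rw [card_image_of_injective _ hinj, ht'c]
  · intro a ha b hb c hc habc
    rw [mem_coe, mem_image] at ha hb hc
    obtain ⟨a', ha', rfl⟩ := ha
    obtain ⟨b', hb', rfl⟩ := hb
    obtain ⟨c', hc', rfl⟩ := hc
    have e : a' + c' = b' + b' := by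
      have : (a' : ℤ) + c' = b' + b' := by linarith
      exact_mod_cast this
    have := htf (mem_coe.2 (ht' ha')) (mem_coe.2 (ht' hb')) (mem_coe.2 (ht' hc')) e
    rw [this]
  · intro x hx
    rw [mem_image] at hx
    obtain ⟨y, hy, rfl⟩ := hx
    have h1 := mem_range.1 (ht (ht' hy))
    have h2 : (y : ℤ) < 2 ^ (E - 4) := by exact_mod_cast h1
    have h3 : (2 : ℤ) ^ E = 16 * 2 ^ (E - 4) := by
      conv_lhs => rw [show E = 4 + (E - 4) by omega, pow_add]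
      norm_num
    constructor
    · omega
    · rw [h3]; omega

/-- the size of Behrend sets in `[0, 2 ^ (Q K ^ 2 - 4))` -/
theorem behrend_size (Q K : ℕ) (hQ : 1 ≤ Q) (hK : 6 * Q + 4 ≤ K) :
    2 ^ (Q * K ^ 2 - (6 * Q + 4) * K) ≤ rothNumberNat (2 ^ (Q * K ^ 2 - 4)) := by
  have hK1 : 1 ≤ K := by omega
  have hKK : K ≤ Q * K ^ 2 := by nlinarith
  have h4 : 4 ≤ Q * K ^ 2 := by omega
  have hc : (6 * Q + 4) * K ≤ Q * K ^ 2 := by nlinarith [Nat.mul_le_mul hK (le_refl K)]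
  set E := Q * K ^ 2 - 4 with hE
  have h1 := Behrend.roth_lower_bound (N := 2 ^ E)
  have h2 : Real.log ((2 ^ E : ℕ) : ℝ) ≤ ((Q : ℝ) * K) ^ 2 := by
    push_cast
    rw [Real.log_pow]
    have h3 : Real.log 2 ≤ 1 := by
      have := Real.log_two_lt_d9
      linarith
    have h5 : (E : ℝ) ≤ ((Q : ℝ) * K) ^ 2 := by
      have : E ≤ (Q * K) ^ 2 := by
        calc E ≤ Q * K ^ 2 := Nat.sub_le _ _
          _ ≤ (Q * K) ^ 2 := by nlinarith [Nat.mul_le_mul hQ (le_refl (Q * K ^ 2))]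
      exact_mod_cast this
    calc (E : ℝ) * Real.log 2 ≤ (E : ℝ) * 1 := mul_le_mul_of_nonneg_left h3 (Nat.cast_nonneg _)
      _ ≤ _ := by rw [mul_one]; exact h5
  have h3 : Real.sqrt (Real.log ((2 ^ E : ℕ) : ℝ)) ≤ (Q : ℝ) * K := by
    rw [Real.sqrt_le_left (by positivity)]
    exact h2
  have h5 : (2 : ℝ) ^ (-((6 * Q * K : ℕ) : ℝ)) ≤
      Real.exp (-4 * Real.sqrt (Real.log ((2 ^ E : ℕ) : ℝ))) := by
    rw [Real.rpow_def_of_pos (by norm_num)]
    apply Real.exp_le_exp.2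
    have h6 := Real.log_two_gt_d9
    have h7 : (0 : ℝ) ≤ (Q : ℝ) * K := by positivity
    have h8 : Real.log 2 * -((6 * Q * K : ℕ) : ℝ) ≤ -4 * ((Q : ℝ) * K) := by
      push_cast
      nlinarith
    linarith
  have h6 : ((2 ^ (Q * K ^ 2 - (6 * Q + 4) * K) : ℕ) : ℝ) ≤
      ((2 ^ E : ℕ) : ℝ) * (2 : ℝ) ^ (-((6 * Q * K : ℕ) : ℝ)) := by
    push_cast
    rw [← Real.rpow_natCast, ← Real.rpow_natCast, ← Real.rpow_add (by norm_num)]
    apply Real.rpow_le_rpow_of_exponent_le (by norm_num)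
    rw [hE, Nat.cast_sub hc, Nat.cast_sub h4]
    push_cast
    have : (1 : ℝ) ≤ K := by exact_mod_cast hK1
    nlinarith
  have h7 : ((2 ^ (Q * K ^ 2 - (6 * Q + 4) * K) : ℕ) : ℝ) ≤ (rothNumberNat (2 ^ E) : ℝ) := by
    calc _ ≤ _ := h6
      _ ≤ ((2 ^ E : ℕ) : ℝ) * Real.exp (-4 * Real.sqrt (Real.log ((2 ^ E : ℕ) : ℝ))) :=
          mul_le_mul_of_nonneg_left h5 (Nat.cast_nonneg _)
      _ ≤ _ := h1
  exact_mod_cast h7

/-- three-term progressions across the blocks -/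
theorem threeAPFree_union {O B : Finset ℤ} {L M : ℤ}
    (hO : ∀ x ∈ O, 0 ≤ x ∧ x ≤ L) (hB : ∀ x ∈ B, M < x ∧ 16 * x ≤ 17 * M) (hLM : 16 * L ≤ M)
    (hM : 0 ≤ M) (hOf : ThreeAPFree (O : Set ℤ)) (hBf : ThreeAPFree (B : Set ℤ)) :
    ThreeAPFree ((O ∪ B : Finset ℤ) : Set ℤ) := by
  intro a ha b hb c hc habc
  rw [mem_coe, mem_union] at ha hb hc
  rcases hb with hb | hb
  · have b1 := hO _ hb
    have ha' : a ∈ O := by
      rcases ha with ha | ha
      · exact ha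
      · exfalso
        have a1 := hB _ ha
        rcases hc with hc | hc
        · have c1 := hO _ hc; omega
        · have c1 := hB _ hc; omega
    have hc' : c ∈ O := by
      rcases hc with hc | hc
      · exact hc
      · exfalso
        have c1 := hB _ hc
        have a1 := hO _ ha'
        omega
    exact hOf (mem_coe.2 ha') (mem_coe.2 hb) (mem_coe.2 hc') habc
  · have b1 := hB _ hb
    have ha' : a ∈ B := by
      rcases ha with ha | ha
      · exfalso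
        have a1 := hO _ ha
        rcases hc with hc | hc
        · have c1 := hO _ hc; omega
        · have c1 := hB _ hc; omega
      · exact ha
    have hc' : c ∈ B := by
      rcases hc with hc | hc
      · exfalso
        have c1 := hO _ hc
        have a1 := hB _ ha'
        omega
      · exact hc
    exact hBf (mem_coe.2 ha') (mem_coe.2 hb) (mem_coe.2 hc') habc

/-! ### The exponents; throughout `h = u + 1`, `g = v + 1` -/

/-- `Q = h g - 1` -/
def QQ (u v : ℕ) : ℕ := u * v + u + v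
/-- `T = h + g - 2` -/
def TT (u v : ℕ) : ℕ := u + v
/-- `P = (h - 1) (g - 1)` -/
def PP (u v : ℕ) : ℕ := u * v
/-- the Behrend loss -/
def cc (u v : ℕ) : ℕ := 6 * QQ u v + 4
/-- the loss in each step -/
def dd (u v : ℕ) : ℕ := 2 * (u + v) + 6
/-- the total loss -/
def ss (u v : ℕ) : ℕ := cc u v + dd u v + 2

/-- the exponent of the bound for the number of `j × l` grids -/
def Ge (u v : ℕ) (K j l : ℤ) : ℤ :=
  ((QQ u v : ℤ) * K ^ 2 - cc u v * K) * (j + l - 1) - ((TT u v : ℤ) * K ^ 2 + (dd u v + 2) * K) * (j * l)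

/-- the first index -/
def K0 (u v : ℕ) : ℕ :=
  ss u v + cc u v * (u + v + 2) + (dd u v + 2) * ((u + 1) * (v + 1)) + 2

theorem Ge_mono (u v : ℕ) (hu : 1 ≤ u) (hv : 1 ≤ v) (K : ℕ) (hK : K0 u v ≤ K) (j l : ℕ)
    (hj1 : 1 ≤ j) (hj2 : j ≤ u + 1) (hl1 : 1 ≤ l) (hl2 : l ≤ v + 1) :
    Ge u v K j l ≤ Ge u v (K + 1) j l := by
  obtain ⟨a, rfl⟩ : ∃ a, j = a + 1 := ⟨j - 1, by omega⟩
  obtain ⟨b, rfl⟩ : ∃ b, l = b + 1 := ⟨l - 1, by omega⟩
  have ha : a ≤ u := by omega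
  have hb : b ≤ v := by omega
  have hf : (1 : ℤ) ≤ (QQ u v : ℤ) * (a + b + 1) - TT u v * ((a + 1) * (b + 1)) := by
    unfold QQ TT
    push_cast
    have h1 : (0 : ℤ) ≤ (u : ℤ) * a * (v - b) := by
      apply mul_nonneg (by positivity)
      have : (b : ℤ) ≤ v := by exact_mod_cast hb
      linarith
    have h2 : (0 : ℤ) ≤ (v : ℤ) * b * (u - a) := by
      apply mul_nonneg (by positivity)
      have : (a : ℤ) ≤ u := by exact_mod_cast ha
      linarith
    have h3 : (1 : ℤ) ≤ (u : ℤ) * v := by exact_mod_cast Nat.mul_le_mul hu hv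
    nlinarith
  have hw : (cc u v : ℤ) * (a + b + 1) + (dd u v + 2) * ((a + 1) * (b + 1)) ≤ 2 * K + 1 := by
    have h1 : cc u v * (a + b + 1) ≤ cc u v * (u + v + 2) := Nat.mul_le_mul_left _ (by omega)
    have h2 : (dd u v + 2) * ((a + 1) * (b + 1)) ≤ (dd u v + 2) * ((u + 1) * (v + 1)) :=
      Nat.mul_le_mul_left _ (Nat.mul_le_mul (by omega) (by omega))
    have h3 : cc u v * (a + b + 1) + (dd u v + 2) * ((a + 1) * (b + 1)) ≤ 2 * K + 1 := by
      unfold K0 at hK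
      omega
    exact_mod_cast h3
  unfold Ge
  push_cast
  have hK0 : (0 : ℤ) ≤ 2 * (K : ℤ) + 1 := by positivity
  nlinarith

end Pool.Agent.Q248.CHG
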