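import Pool.Agent.Q248.CHG.Grid

/-!
# One step of the construction, in abstract form
-/

namespace Pool.Agent.Q248.CHG

open Finset

theorem newPart_eq {h g : ℕ} {R : Finset (Fin h)} {C : Finset (Fin g)} {O B A : Finset ℤ}
    (hOB : ∀ x ∈ O, x ∉ B) (h0 : (0 : ℤ) ∉ B) (hAB : A ⊆ B) {φ : Fin h → Fin g → ℤ}
    (hφ : φ ∈ Grid R C (O ∪ A)) : newPart B φ = newPart A φ := by
  unfold newPart
  ext x
  rw [mem_inter, mem_inter]
  constructor
  · rintro ⟨hx, hxB⟩
    refine ⟨hx, ?_⟩
    rw [mem_image] at hx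
    obtain ⟨⟨i, k⟩, _, rfl⟩ := hx
    rw [mem_Grid] at hφ
    by_cases hik : i ∈ R ∧ k ∈ C
    · have := hφ.1 i hik.1 k hik.2
      rw [mem_union] at this
      rcases this with h1 | h1
      · exact absurd hxB (hOB _ h1)
      · exact h1
    · exfalso
      have := hφ.2.1 i k hik
      simp only [this] at hxB
      exact h0 hxB
  · rintro ⟨hx, hxA⟩
    exact ⟨hx, hAB hxA⟩

open Classical in
/-- **The abstract step.** -/
theorem abstract_step {h g : ℕ} {O B : Finset ℤ} {L M : ℤ}
    (hO : ∀ x ∈ O, 0 ≤ x ∧ x ≤ L) (hB : ∀ x ∈ B, M < x ∧ 16 * x ≤ 17 * M) (hLM : 16 * L ≤ M)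
    (hM : 0 ≤ M) (m q : ℕ) (hq : 0 < q) (hBc : B.card = m * q)
    (hfull : Grid (univ : Finset (Fin h)) (univ : Finset (Fin g)) O = ∅)
    (hh : 0 < h) (hg : 0 < g)
    (U : Finset (Fin h) → Finset (Fin g) → ℝ)
    (hU0 : ∀ R C, R.Nonempty → C.Nonempty → 0 < U R C)
    (hU1 : ∀ R C, R.Nonempty → C.Nonempty →
      (B.card : ℝ) ^ (R.card + C.card - 1) * (1 / (q : ℝ)) ^ (R.card * C.card) ≤ U R C)
    (hU2 : ∀ R C, R.Nonempty → C.Nonempty → ∀ R', R' ⊂ R → R'.Nonempty →
      ((Grid (R \ R') C O).card : ℝ) * (B.card : ℝ) ^ R'.card * (1 / (q : ℝ)) ^ (R'.card * C.card) ≤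
        U R C)
    (hU3 : ∀ R C, R.Nonempty → C.Nonempty → ∀ C', C' ⊂ C → C'.Nonempty →
      ((Grid R (C \ C') O).card : ℝ) * (B.card : ℝ) ^ C'.card * (1 / (q : ℝ)) ^ (C'.card * R.card) ≤
        U R C)
    (hUfull : 2 ^ (h + g) * ((2 : ℝ) ^ h + 2 ^ g) * U univ univ ≤ (m : ℝ) / 2) :
    ∃ A ⊆ B, m ≤ 2 * A.card ∧ Grid (univ : Finset (Fin h)) (univ : Finset (Fin g)) (O ∪ A) = ∅ ∧
      ∀ R C, R.Nonempty → C.Nonempty → ((Grid R C (O ∪ A)).card : ℝ) ≤
        (Grid R C O).card + 2 ^ (h + g) * ((2 : ℝ) ^ h + 2 ^ g) * U R C := by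
  have h0B : (0 : ℤ) ∉ B := fun h0 => by have := (hB 0 h0).1; omega
  have hOB : ∀ x ∈ O, x ∉ B := by
    intro x hx hxB
    have h1 := hO x hx
    have h2 := hB x hxB
    omega
  set p : ℝ := 1 / (q : ℝ) with hp
  have hq1 : (1 : ℝ) ≤ (q : ℝ) := by exact_mod_cast hq
  have hp0 : 0 ≤ p := by positivity
  have hp1 : p ≤ 1 := by rw [hp, div_le_one (by linarith)]; exact hq1
  set c₀ : ℝ := (2 : ℝ) ^ h + 2 ^ g with hc₀
  have hc₀pos : 0 < c₀ := by positivity
  -- expected numbers
  have hE : ∀ R : Finset (Fin h), ∀ C : Finset (Fin g), R.Nonempty → C.Nonempty →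
      ∑ φ ∈ NewGrid R C O B, p ^ (newPart B φ).card ≤ c₀ * U R C := by
    intro R C hR hC
    have h1 := sum_newGrid hO hB hLM hM hR hC p hp0 hp1
    have e2 : ∑ R' ∈ R.ssubsets.filter (fun R' => R'.Nonempty),
        ((Grid (R \ R') C O).card : ℝ) * (B.card : ℝ) ^ R'.card * p ^ (R'.card * C.card) ≤
        ((2 : ℝ) ^ h - 1) * U R C := by
      calc _ ≤ ∑ R' ∈ R.ssubsets.filter (fun R' => R'.Nonempty), U R C := by
            apply sum_le_sum
            intro R' hR'
            rw [mem_filter, mem_ssubsets] at hR'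
            exact hU2 R C hR hC R' hR'.1 hR'.2
        _ = ((R.ssubsets.filter (fun R' => R'.Nonempty)).card : ℝ) * U R C := by
            rw [sum_const, nsmul_eq_mul]
        _ ≤ _ := by
            apply mul_le_mul_of_nonneg_right _ (hU0 R C hR hC).le
            have h2 : (R.ssubsets.filter (fun R' => R'.Nonempty)).card ≤ 2 ^ R.card - 1 := by
              apply (card_filter_le _ _).trans
              unfold ssubsets
              rw [card_erase_of_mem (mem_powerset_self R), card_powerset]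
            have h3 : R.card ≤ h := (card_le_univ _).trans (by rw [Fintype.card_fin])
            have h4 : 2 ^ R.card ≤ 2 ^ h := Nat.pow_le_pow_right (by norm_num) h3
            have h5 : (R.ssubsets.filter (fun R' => R'.Nonempty)).card + 1 ≤ 2 ^ h := by
              have : 0 < 2 ^ R.card := by positivity
              omega
            have h6 : ((R.ssubsets.filter (fun R' => R'.Nonempty)).card : ℝ) + 1 ≤ (2 : ℝ) ^ h := by
              exact_mod_cast h5
            linarith
    have e3 : ∑ C' ∈ C.ssubsets.filter (fun C' => C'.Nonempty),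
        ((Grid R (C \ C') O).card : ℝ) * (B.card : ℝ) ^ C'.card * p ^ (C'.card * R.card) ≤
        ((2 : ℝ) ^ g - 1) * U R C := by
      calc _ ≤ ∑ C' ∈ C.ssubsets.filter (fun C' => C'.Nonempty), U R C := by
            apply sum_le_sum
            intro C' hC'
            rw [mem_filter, mem_ssubsets] at hC'
            exact hU3 R C hR hC C' hC'.1 hC'.2
        _ = ((C.ssubsets.filter (fun C' => C'.Nonempty)).card : ℝ) * U R C := by
            rw [sum_const, nsmul_eq_mul]
        _ ≤ _ := by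
            apply mul_le_mul_of_nonneg_right _ (hU0 R C hR hC).le
            have h2 : (C.ssubsets.filter (fun C' => C'.Nonempty)).card ≤ 2 ^ C.card - 1 := by
              apply (card_filter_le _ _).trans
              unfold ssubsets
              rw [card_erase_of_mem (mem_powerset_self C), card_powerset]
            have h3 : C.card ≤ g := (card_le_univ _).trans (by rw [Fintype.card_fin])
            have h4 : 2 ^ C.card ≤ 2 ^ g := Nat.pow_le_pow_right (by norm_num) h3
            have h5 : (C.ssubsets.filter (fun C' => C'.Nonempty)).card + 1 ≤ 2 ^ g := by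
              have : 0 < 2 ^ C.card := by positivity
              omega
            have h6 : ((C.ssubsets.filter (fun C' => C'.Nonempty)).card : ℝ) + 1 ≤ (2 : ℝ) ^ g := by
              exact_mod_cast h5
            linarith
    have e1 := hU1 R C hR hC
    have hUp := hU0 R C hR hC
    calc _ ≤ _ := h1
      _ ≤ U R C + ((2 : ℝ) ^ h - 1) * U R C + ((2 : ℝ) ^ g - 1) * U R C := by linarith
      _ ≤ c₀ * U R C := by rw [hc₀]; nlinarith
  -- the averaging
  set J : Finset (Finset (Fin h) × Finset (Fin g)) :=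
    (univ ×ˢ univ).filter (fun rc => rc.1.Nonempty ∧ rc.2.Nonempty) with hJ
  set I : Finset (Σ _ : Finset (Fin h) × Finset (Fin g), (Fin h → Fin g → ℤ)) :=
    J.sigma (fun rc => NewGrid rc.1 rc.2 O B) with hI
  obtain ⟨A', hA'B, hA'c, hA's⟩ := exists_subset_avg B m q hq hBc I (fun x => newPart B x.2)
    (fun x _ => newPart_subset B x.2) (fun x => 1 / (c₀ * U x.1.1 x.1.2)) (by
      intro x hx
      rw [hI, mem_sigma, hJ, mem_filter] at hx
      have := hU0 _ _ hx.1.2.1 hx.1.2.2
      positivity)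
  have hright : ∑ i ∈ I, 1 / (c₀ * U i.1.1 i.1.2) * (1 / (q : ℝ)) ^ (newPart B i.2).card ≤
      2 ^ (h + g) := by
    rw [hI, sum_sigma]
    calc _ ≤ ∑ rc ∈ J, (1 : ℝ) := by
          apply sum_le_sum
          intro rc hrc
          rw [hJ, mem_filter] at hrc
          have h1 := hE rc.1 rc.2 hrc.2.1 hrc.2.2
          have h2 := hU0 _ _ hrc.2.1 hrc.2.2
          show ∑ s ∈ NewGrid rc.1 rc.2 O B, 1 / (c₀ * U rc.1 rc.2) *
            (1 / (q : ℝ)) ^ (newPart B s).card ≤ 1
          rw [← mul_sum]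
          rw [one_div (c₀ * U rc.1 rc.2), ← hp, inv_mul_le_iff₀ (by positivity), mul_one]
          exact h1
      _ = (J.card : ℝ) := by rw [sum_const, nsmul_eq_mul, mul_one]
      _ ≤ 2 ^ (h + g) := by
          have : J.card ≤ 2 ^ (h + g) := by
            apply (card_filter_le _ _).trans
            rw [card_product, card_univ, card_univ, Fintype.card_finset, Fintype.card_finset,
              Fintype.card_fin, Fintype.card_fin, pow_add]
          exact_mod_cast this
  have hsmall : ∀ R : Finset (Fin h), ∀ C : Finset (Fin g), R.Nonempty → C.Nonempty →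
      (((NewGrid R C O B).filter (fun φ => newPart B φ ⊆ A')).card : ℝ) ≤
        2 ^ (h + g) * c₀ * U R C := by
    intro R C hR hC
    have hUp := hU0 R C hR hC
    have h1 : ∑ φ ∈ (NewGrid R C O B).filter (fun φ => newPart B φ ⊆ A'), 1 / (c₀ * U R C) ≤
        2 ^ (h + g) := by
      refine le_trans ?_ (hA's.trans hright)
      rw [hI, sum_sigma]
      have hmem : ((R, C) : Finset (Fin h) × Finset (Fin g)) ∈ J := by
        rw [hJ, mem_filter]
        exact ⟨mem_product.2 ⟨mem_univ _, mem_univ _⟩, hR, hC⟩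
      refine le_trans ?_ (single_le_sum (f := fun rc : Finset (Fin h) × Finset (Fin g) =>
        ∑ s ∈ NewGrid rc.1 rc.2 O B, if newPart B s ⊆ A' then 1 / (c₀ * U rc.1 rc.2) else 0) ?_ hmem)
      · rw [sum_filter]
      · intro rc hrc
        rw [hJ, mem_filter] at hrc
        apply sum_nonneg
        intro s _
        split_ifs
        · have := hU0 _ _ hrc.2.1 hrc.2.2
          positivity
        · exact le_rfl
    rw [sum_const, nsmul_eq_mul, mul_one_div, div_le_iff₀ (by positivity)] at h1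
    linarith
  -- the bad configurations
  set Bad := Grid (univ : Finset (Fin h)) (univ : Finset (Fin g)) (O ∪ A') with hBad
  haveI : Nonempty (Fin h) := ⟨⟨0, hh⟩⟩
  haveI : Nonempty (Fin g) := ⟨⟨0, hg⟩⟩
  have hnewA : ∀ R : Finset (Fin h), ∀ C : Finset (Fin g), ∀ φ ∈ Grid R C (O ∪ A'),
      ¬ (φ ∈ Grid R C O) → (newPart A' φ).Nonempty := by
    intro R C φ hφ hn
    by_contra hemp
    rw [not_nonempty_iff_eq_empty] at hemp
    apply hn
    rw [mem_Grid] at hφ ⊢
    refine ⟨?_, hφ.2⟩
    intro i hi k hk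
    have h1 := hφ.1 i hi k hk
    rw [mem_union] at h1
    rcases h1 with h1 | h1
    · exact h1
    · exfalso
      have : φ i k ∈ newPart A' φ := by
        unfold newPart
        exact mem_inter.2 ⟨mem_image.2 ⟨(i, k), mem_univ _, rfl⟩, h1⟩
      rw [hemp] at this
      exact notMem_empty _ this
  have hnewB : ∀ R : Finset (Fin h), ∀ C : Finset (Fin g), ∀ φ ∈ Grid R C (O ∪ A'),
      ¬ (φ ∈ Grid R C O) → φ ∈ (NewGrid R C O B).filter (fun φ => newPart B φ ⊆ A') := by
    intro R C φ hφ hn
    have h1 := hnewA R C φ hφ hn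
    have h2 := newPart_eq hOB h0B hA'B hφ
    rw [mem_filter]
    unfold NewGrid
    rw [mem_filter]
    refine ⟨⟨Grid_mono (union_subset_union_right hA'B) hφ, ?_⟩, ?_⟩
    · rw [h2]; exact h1
    · rw [h2]; exact newPart_subset _ _
  have hBadc : (Bad.card : ℝ) ≤ (m : ℝ) / 2 := by
    refine le_trans ?_ hUfull
    refine le_trans ?_ (hsmall univ univ univ_nonempty univ_nonempty)
    have : Bad ⊆ (NewGrid univ univ O B).filter (fun φ => newPart B φ ⊆ A') := by
      intro φ hφ
      apply hnewB univ univ φ hφ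
      rw [hfull]
      exact notMem_empty _
    exact_mod_cast card_le_card this
  have hδ : ∀ φ : Fin h → Fin g → ℤ, ∃ x : ℤ, φ ∈ Bad → x ∈ newPart A' φ := by
    intro φ
    by_cases hφ : φ ∈ Bad
    · obtain ⟨x, hx⟩ := hnewA univ univ φ hφ (by rw [hfull]; exact notMem_empty _)
      exact ⟨x, fun _ => hx⟩
    · exact ⟨0, fun h => absurd h hφ⟩
  choose δ hδ using hδ
  refine ⟨A' \ Bad.image δ, sdiff_subset.trans hA'B, ?_, ?_, ?_⟩
  · have h1 : m ≤ (A' \ Bad.image δ).card + (Bad.image δ).card := by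
      rw [← hA'c]
      exact Nat.le_add_of_sub_le (le_card_sdiff _ _)
    have h2 : (Bad.image δ).card ≤ Bad.card := card_image_le
    have h3 : 2 * Bad.card ≤ m := by
      have : (2 * Bad.card : ℝ) ≤ m := by linarith
      exact_mod_cast this
    omega
  · rw [eq_empty_iff_forall_notMem]
    intro φ hφ
    have h1 : φ ∈ Bad := Grid_mono (union_subset_union_right sdiff_subset) hφ
    have h2 := hδ φ h1
    have h3 := h2
    unfold newPart at h3
    rw [mem_inter, mem_image] at h3
    obtain ⟨⟨⟨i, k⟩, _, hik⟩, h4⟩ := h3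
    rw [mem_Grid] at hφ
    have h5 := hφ.1 i (mem_univ _) k (mem_univ _)
    have h6 : φ i k = δ φ := hik
    rw [h6, mem_union, mem_sdiff] at h5
    rcases h5 with h5 | h5
    · exact hOB _ h5 (hA'B h4)
    · exact h5.2 (mem_image.2 ⟨φ, h1, rfl⟩)
  · intro R C hR hC
    have h1 : Grid R C (O ∪ A' \ Bad.image δ) ⊆
        Grid R C O ∪ (NewGrid R C O B).filter (fun φ => newPart B φ ⊆ A') := by
      intro φ hφ
      have h2 : φ ∈ Grid R C (O ∪ A') := Grid_mono (union_subset_union_right sdiff_subset) hφ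
      rw [mem_union]
      by_cases h3 : φ ∈ Grid R C O
      · exact Or.inl h3
      · exact Or.inr (hnewB R C φ h2 h3)
    have h2 := (card_le_card h1).trans (card_union_le _ _)
    have h3 : ((Grid R C (O ∪ A' \ Bad.image δ)).card : ℝ) ≤ (Grid R C O).card +
        ((NewGrid R C O B).filter (fun φ => newPart B φ ⊆ A')).card := by exact_mod_cast h2
    exact h3.trans (by have := hsmall R C hR hC; linarith)

end Pool.Agent.Q248.CHG
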